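import Pool.Agent.Helper19.Moid.Count

namespace Pool.Agent.Helper19.Moid

noncomputable def L (x : ℝ) : ℝ := Real.sqrt (1 + x^2)

lemma L_sq (x : ℝ) : L x ^ 2 = 1 + x^2 := Real.sq_sqrt (by positivity)
lemma L_pos (x : ℝ) : 0 < L x := Real.sqrt_pos.mpr (by positivity)
lemma L_ne (x : ℝ) : L x ≠ 0 := (L_pos x).ne'
lemma abs_lt_L (x : ℝ) : |x| < L x := by
  refine abs_lt_of_sq_lt_sq ?_ (L_pos x).le
  rw [L_sq]; linarith

lemma hasDerivAt_L (x : ℝ) : HasDerivAt L (x / L x) x := by
  have h1 : HasDerivAt (fun x : ℝ => 1 + x^2) (2 * x) x := by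
    have := ((hasDerivAt_id x).pow 2).const_add 1
    simpa using this
  have h2 := h1.sqrt (by positivity)
  refine h2.congr_deriv ?_
  have : Real.sqrt (1 + x^2) ≠ 0 := L_ne x
  simp only [L]
  field_simp

section
variable (α β γ e : ℝ)

noncomputable def q (x : ℝ) : ℝ := β + (α - γ) * x - β * x^2
noncomputable def M (x : ℝ) : ℝ := L x + e * x
noncomputable def Q (x : ℝ) : ℝ := α * x^2 + 2 * β * x + γ
noncomputable def N (x : ℝ) : ℝ := q α β γ x / L x - e * (β * x + γ)
noncomputable def N1 (x : ℝ) : ℝ := ((α - γ) - 3 * β * x - β * x^3) / L x^3 - β * e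
noncomputable def N2 (x : ℝ) : ℝ := -3 * q α β γ x / L x^5
noncomputable def T (x : ℝ) : ℝ := M e x * Q α β γ x * N1 α β γ e x - (N α β γ e x)^2
noncomputable def S (x : ℝ) : ℝ :=
  3 * (-β * (1 + e^2) + e * ((α - γ) - β * x * (5 + 5 * x^2 + 2 * x^4)) / L x^5)
noncomputable def H (x : ℝ) : ℝ := M e x * N α β γ e x / Real.sqrt (Q α β γ x)

variable {α β γ e}

lemma hasDerivAt_q (x : ℝ) : HasDerivAt (q α β γ) ((α - γ) - 2 * β * x) x := by
  have h1 : HasDerivAt (fun x : ℝ => β + (α - γ) * x - β * x^2)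
      (0 + (α - γ) * 1 - β * (2 * x ^ 1 * 1)) x :=
    ((hasDerivAt_const x β).add ((hasDerivAt_id x).const_mul (α - γ))).sub
      (((hasDerivAt_id x).pow 2).const_mul β)
  exact h1.congr_deriv (by ring)

lemma hasDerivAt_M (x : ℝ) : HasDerivAt (M e) (x / L x + e) x := by
  have h1 := (hasDerivAt_L x).add ((hasDerivAt_id x).const_mul e)
  exact h1.congr_deriv (by ring)

lemma hasDerivAt_Q (x : ℝ) : HasDerivAt (Q α β γ) (2 * (α * x + β)) x := by
  have h1 : HasDerivAt (fun x : ℝ => α * x^2 + 2 * β * x + γ)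
      (α * (2 * x ^ 1 * 1) + 2 * β * 1) x :=
    ((((hasDerivAt_id x).pow 2).const_mul α).add
      ((hasDerivAt_id x).const_mul (2 * β))).add_const γ
  exact h1.congr_deriv (by ring)

lemma hasDerivAt_N (x : ℝ) : HasDerivAt (N α β γ e) (N1 α β γ e x) x := by
  have hl := L_sq x
  have hl0 := L_ne x
  have h1 := ((hasDerivAt_q (α := α) (β := β) (γ := γ) x).div (hasDerivAt_L x) (L_ne x)).sub
      ((((hasDerivAt_id x).const_mul β).add_const γ).const_mul e)
  refine h1.congr_deriv ?_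
  simp only [N1, q]
  generalize L x = l at hl hl0
  field_simp
  linear_combination ((α - γ) - 2 * β * x) * hl

lemma hasDerivAt_N1 (x : ℝ) : HasDerivAt (N1 α β γ e) (N2 α β γ x) x := by
  have hl := L_sq x
  have hl0 := L_ne x
  have h0 : HasDerivAt (fun x : ℝ => (α - γ) - 3 * β * x - β * x^3)
      (-(3 * β) - 3 * β * x^2) x := by
    have := (((hasDerivAt_const x (α - γ)).sub ((hasDerivAt_id x).const_mul (3 * β))).sub
      (((hasDerivAt_id x).pow 3).const_mul β))
    refine this.congr_deriv ?_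
    simp; ring
  have h1 := (h0.div ((hasDerivAt_L x).pow 3) (pow_ne_zero 3 (L_ne x))).sub_const (β * e)
  refine h1.congr_deriv ?_
  simp only [N2, q, Pi.pow_apply]
  generalize L x = l at hl hl0
  push_cast
  field_simp
  grind

lemma N_eq (x : ℝ) : N α β γ e x =
    (α * x + β) * M e x - Q α β γ x * (x / L x + e) := by
  have hl := L_sq x
  have hl0 := L_ne x
  simp only [N, M, Q, q]
  generalize L x = l at hl hl0
  field_simp
  linear_combination (-(α * x + β)) * hl

lemma S_eq (x : ℝ) : S α β γ e x =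
    3 * (x / L x + e) * N1 α β γ e x + M e x * N2 α β γ x := by
  have hl := L_sq x
  have hl0 := L_ne x
  simp only [S, N1, N2, M, q]
  generalize L x = l at hl hl0
  field_simp
  grind

lemma hasDerivAt_T (x : ℝ) : HasDerivAt (T α β γ e) (Q α β γ x * S α β γ e x) x := by
  have h1 := (((hasDerivAt_M (e := e) x).mul (hasDerivAt_Q (α := α) (β := β) (γ := γ) x)).mul
    (hasDerivAt_N1 (α := α) (β := β) (γ := γ) (e := e) x)).sub
    ((hasDerivAt_N (α := α) (β := β) (γ := γ) (e := e) x).pow 2)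
  refine h1.congr_deriv ?_
  rw [S_eq]
  have h2 := N_eq (α := α) (β := β) (γ := γ) (e := e) x
  simp only [Nat.cast_ofNat, pow_one, Nat.add_one_sub_one, Pi.mul_apply]
  rw [h2]
  ring

lemma hasDerivAt_S (x : ℝ) : HasDerivAt (S α β γ e) (-15 * e * q α β γ x / L x^7) x := by
  have hl := L_sq x
  have hl0 := L_ne x
  have h0 : HasDerivAt (fun x : ℝ => (α - γ) - β * x * (5 + 5 * x^2 + 2 * x^4))
      (-β * (5 + 15 * x^2 + 10 * x^4)) x := by
    have := ((hasDerivAt_const x (α - γ)).sub (((hasDerivAt_id x).const_mul β).mul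
      (((((hasDerivAt_id x).pow 2).const_mul 5).const_add 5).add
        (((hasDerivAt_id x).pow 4).const_mul 2))))
    refine this.congr_deriv ?_
    simp; ring
  have h1 := (((((h0.const_mul e)).div ((hasDerivAt_L x).pow 5)
    (pow_ne_zero 5 (L_ne x))).const_add (-β * (1 + e^2))).const_mul 3)
  refine h1.congr_deriv ?_
  simp only [q, Pi.pow_apply]
  generalize L x = l at hl hl0
  push_cast
  field_simp
  grind

lemma hasDerivAt_H (x : ℝ) (hQ : 0 < Q α β γ x) :
    HasDerivAt (H α β γ e) (T α β γ e x / (Q α β γ x * Real.sqrt (Q α β γ x))) x := by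
  have hs := Real.sqrt_pos.mpr hQ
  have h1 := ((hasDerivAt_M (e := e) x).mul (hasDerivAt_N (α := α) (β := β) (γ := γ) (e := e) x)).div
    ((hasDerivAt_Q (α := α) (β := β) (γ := γ) x).sqrt hQ.ne') hs.ne'
  refine h1.congr_deriv ?_
  have hsq : Real.sqrt (Q α β γ x) ^ 2 = Q α β γ x := Real.sq_sqrt hQ.le
  have h2 := N_eq (α := α) (β := β) (γ := γ) (e := e) x
  simp only [T, Pi.mul_apply]
  clear h1
  generalize Real.sqrt (Q α β γ x) = r at hs hsq ⊢
  generalize Q α β γ x = Qx at hQ hsq h2 ⊢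
  generalize N1 α β γ e x = n1
  generalize M e x = m at h2 ⊢
  generalize N α β γ e x = n at h2 ⊢
  generalize x / L x + e = w at h2 ⊢
  subst hsq
  field_simp
  linear_combination n * h2

end

end Pool.Agent.Helper19.Moid
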