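import Mathlib

namespace Pool.Agent.Helper19.Moid

/-- If between any two points of `s` there is a point of `Z`, then `s` has at most one more
point than `Z`. -/
theorem encard_le_succ_of_gap {s Z : Set ℝ}
    (h : ∀ a ∈ s, ∀ b ∈ s, a < b → ∃ z ∈ Z, a < z ∧ z < b) :
    s.encard ≤ Z.encard + 1 := by
  by_cases hZ : Z.Finite
  · have key : s.encard ≤ (Set.Iic Z.ncard : Set ℕ).encard := by
      refine Set.encard_le_encard_of_injOn (f := fun a => (Z ∩ Set.Iio a).ncard) ?_ ?_
      · intro a _
        exact Set.ncard_le_ncard Set.inter_subset_left hZ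
      · have hlt : ∀ a ∈ s, ∀ b ∈ s, a < b →
            (Z ∩ Set.Iio a).ncard < (Z ∩ Set.Iio b).ncard := by
          intro a ha b hb hab
          obtain ⟨z, hz, h1, h2⟩ := h a ha b hb hab
          refine Set.ncard_lt_ncard ⟨fun y hy => ⟨hy.1, lt_trans hy.2 hab⟩, ?_⟩
            (hZ.subset Set.inter_subset_left)
          intro hsub
          have := hsub ⟨hz, h2⟩
          exact absurd this.2 (not_lt.mpr h1.le)
        intro a ha b hb hab
        rcases lt_trichotomy a b with h1 | h1 | h1
        · exact absurd hab (hlt a ha b hb h1).ne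
        · exact h1
        · exact absurd hab (hlt b hb a ha h1).ne'
    refine key.trans ?_
    have h2 : (Set.Iic Z.ncard : Set ℕ).encard = Z.ncard + 1 := by
      rw [← Finset.coe_Iic, Set.encard_coe_eq_coe_finsetCard, Nat.card_Iic]
      push_cast
      rfl
    rw [h2, hZ.cast_ncard_eq]
  · rw [Set.Infinite.encard_eq hZ]
    simp

theorem zeros_le_deriv {f f' : ℝ → ℝ} (hf : ∀ x, HasDerivAt f (f' x) x) :
    {x | f x = 0}.encard ≤ {x | f' x = 0}.encard + 1 := by
  refine encard_le_succ_of_gap ?_
  intro a ha b hb hab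
  obtain ⟨c, hc, hc'⟩ := exists_hasDerivAt_eq_zero hab
    (fun x _ => (hf x).continuousAt.continuousWithinAt) (ha.trans hb.symm)
    (fun x _ => hf x)
  exact ⟨c, hc', hc.1, hc.2⟩

theorem level_le {f f' : ℝ → ℝ} (hf : ∀ x, HasDerivAt f (f' x) x) {h : ℝ} (hh : 0 < h) :
    {x | |f x| = h}.encard ≤ {x | f' x = 0}.encard + {x | f x = 0}.encard + 1 := by
  have hgap : {x | |f x| = h}.encard ≤ ({x | f' x = 0} ∪ {x | f x = 0}).encard + 1 := by
    refine encard_le_succ_of_gap ?_
    intro a ha b hb hab
    have hcont : ContinuousOn f (Set.Icc a b) :=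
      fun x _ => (hf x).continuousAt.continuousWithinAt
    by_cases hE : f a = f b
    · obtain ⟨c, hc, hc'⟩ := exists_hasDerivAt_eq_zero hab hcont hE (fun x _ => hf x)
      exact ⟨c, Or.inl hc', hc.1, hc.2⟩
    · have ha' : f a = h ∨ f a = -h := by
        have : |f a| = h := ha
        rcases abs_eq hh.le |>.mp this with h1 | h1
        · exact Or.inl h1
        · exact Or.inr h1
      have hb' : f b = h ∨ f b = -h := by
        have : |f b| = h := hb
        rcases abs_eq hh.le |>.mp this with h1 | h1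
        · exact Or.inl h1
        · exact Or.inr h1
      rcases ha' with ha' | ha' <;> rcases hb' with hb' | hb'
      · exact absurd (ha'.trans hb'.symm) hE
      · have h0 : (0:ℝ) ∈ Set.Ioo (f b) (f a) := by
          rw [ha', hb']; constructor <;> linarith
        obtain ⟨c, hc, hc'⟩ := intermediate_value_Ioo' hab.le hcont h0
        exact ⟨c, Or.inr hc', hc.1, hc.2⟩
      · have h0 : (0:ℝ) ∈ Set.Ioo (f a) (f b) := by
          rw [ha', hb']; constructor <;> linarith
        obtain ⟨c, hc, hc'⟩ := intermediate_value_Ioo hab.le hcont h0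
        exact ⟨c, Or.inr hc', hc.1, hc.2⟩
      · exact absurd (ha'.trans hb'.symm) hE
  refine hgap.trans ?_
  gcongr
  exact Set.encard_union_le _ _

/-- If `f' < 0` wherever `f ≥ 0` then `f` has at most one zero. -/
theorem zeros_le_one {f f' : ℝ → ℝ} (hf : ∀ x, HasDerivAt f (f' x) x)
    (hneg : ∀ x, 0 ≤ f x → f' x < 0) : {x | f x = 0}.encard ≤ 1 := by
  rw [Set.encard_le_one_iff]
  have key : ∀ a b, a < b → f a = 0 → f b = 0 → False := by
    intro a b hab ha hb
    have hcont : ContinuousOn f (Set.Icc a b) :=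
      fun x _ => (hf x).continuousAt.continuousWithinAt
    obtain ⟨m, hm, hmax⟩ := isCompact_Icc.exists_isMaxOn (Set.nonempty_Icc.mpr hab.le) hcont
    -- left of b there is a positive value
    have hb' := hneg b hb.ge
    have hev : ∀ᶠ y in nhdsWithin b (Set.Iio b), 0 < f y := by
      have h1 := hasDerivAt_iff_tendsto_slope.mp (hf b)
      have h2 : ∀ᶠ y in nhdsWithin b {b}ᶜ, slope f b y < 0 := h1.eventually (gt_mem_nhds hb')
      have h3 : nhdsWithin b (Set.Iio b) ≤ nhdsWithin b {b}ᶜ :=
        nhdsWithin_mono _ (fun y hy => ne_of_lt hy)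
      filter_upwards [h3 h2, self_mem_nhdsWithin] with y hy hyb
      rw [slope_def_field, hb, sub_zero] at hy
      have hyb' : y - b < 0 := sub_neg.mpr hyb
      by_contra hcon
      push Not at hcon
      have : 0 ≤ f y / (y - b) := div_nonneg_of_nonpos hcon hyb'.le
      linarith
    have hev2 : ∀ᶠ y in nhdsWithin b (Set.Iio b), a < y :=
      (lt_mem_nhds hab).filter_mono nhdsWithin_le_nhds
    obtain ⟨y, hy1, hy2, hy3⟩ := (hev.and (hev2.and self_mem_nhdsWithin)).exists
    have hy : y ∈ Set.Icc a b := ⟨hy2.le, le_of_lt hy3⟩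
    have hmy : f y ≤ f m := hmax hy
    have hmpos : 0 < f m := lt_of_lt_of_le hy1 hmy
    have hma : a < m := lt_of_le_of_ne hm.1 (by rintro rfl; linarith)
    have hmb : m < b := lt_of_le_of_ne hm.2 (by rintro rfl; linarith)
    have hloc : IsLocalMax f m := hmax.isLocalMax (Icc_mem_nhds hma hmb)
    have := hloc.hasDerivAt_eq_zero (hf m)
    have := hneg m hmpos.le
    linarith
  intro a b ha hb
  rcases lt_trichotomy a b with h1 | h1 | h1
  · exact (key a b h1 ha hb).elim
  · exact h1
  · exact (key b a h1 hb ha).elim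

end Pool.Agent.Helper19.Moid
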