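import Mathlib

namespace Pool.Agent.Helper19.Moid

/-- A nondegenerate ellipse in three-dimensional Euclidean space, given by its centre, two
orthonormal vectors `e₁`, `e₂` (the directions of its axes) and its semi-axes `a ≥ b > 0`
(`a` along `e₁`, `b` along `e₂`). -/
structure Ellipse where
  center : EuclideanSpace ℝ (Fin 3)
  e₁ : EuclideanSpace ℝ (Fin 3)
  e₂ : EuclideanSpace ℝ (Fin 3)
  a : ℝ
  b : ℝ
  norm_e₁ : ‖e₁‖ = 1
  norm_e₂ : ‖e₂‖ = 1
  orthogonal : inner ℝ e₁ e₂ = 0
  b_pos : 0 < b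
  b_le_a : b ≤ a

namespace Ellipse

/-- The regular parametrisation `t ↦ center + a cos t e₁ + b sin t e₂` of the ellipse. -/
noncomputable def point (E : Ellipse) (t : ℝ) : EuclideanSpace ℝ (Fin 3) :=
  E.center + (E.a * Real.cos t) • E.e₁ + (E.b * Real.sin t) • E.e₂

/-- The two foci `center ± √(a² - b²) e₁` (both are the centre when the ellipse is a circle). -/
noncomputable def foci (E : Ellipse) : Set (EuclideanSpace ℝ (Fin 3)) :=
  {E.center + Real.sqrt (E.a ^ 2 - E.b ^ 2) • E.e₁,
    E.center - Real.sqrt (E.a ^ 2 - E.b ^ 2) • E.e₁}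

/-- The eccentricity `√(a² - b²) / a`; it is `0` exactly for circles. -/
noncomputable def eccentricity (E : Ellipse) : ℝ := Real.sqrt (E.a ^ 2 - E.b ^ 2) / E.a

end Ellipse

/-- Two ellipses are confocal if they have a focus in common. -/
def Confocal (E₁ E₂ : Ellipse) : Prop := ∃ F, F ∈ E₁.foci ∧ F ∈ E₂.foci

/-- The stationary points `(p, q)` of the squared distance on the product of the two ellipses:
`p = E₁.point u`, `q = E₂.point v`, and the derivatives of `dist(p, q)²` in `u` and in `v` both vanish. -/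
def stationaryPoints (E₁ E₂ : Ellipse) :
    Set (EuclideanSpace ℝ (Fin 3) × EuclideanSpace ℝ (Fin 3)) :=
  {x | ∃ u v : ℝ, x = (E₁.point u, E₂.point v) ∧
    deriv (fun t => dist (E₁.point t) (E₂.point v) ^ 2) u = 0 ∧
    deriv (fun t => dist (E₁.point u) (E₂.point t) ^ 2) v = 0}

end Pool.Agent.Helper19.Moid
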