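import Pool.Agent.Helper19.Moid.Total
import Pool.Agent.Helper19.Moid.Defs

namespace Pool.Agent.Helper19.Moid

abbrev E3 := EuclideanSpace ℝ (Fin 3)

noncomputable def det3 (x y z : E3) : ℝ :=
  x 0 * (y 1 * z 2 - y 2 * z 1) - x 1 * (y 0 * z 2 - y 2 * z 0) + x 2 * (y 0 * z 1 - y 1 * z 0)

lemma inner3 (x y : E3) : inner ℝ x y = x 0 * y 0 + x 1 * y 1 + x 2 * y 2 := by
  simp [PiLp.inner_apply, Fin.sum_univ_three]
  ring

lemma gram (x x' y z : E3) : det3 x y z * det3 x' y z =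
    inner ℝ x x' * (inner ℝ y y * inner ℝ z z - (inner ℝ y z)^2)
    - inner ℝ x y * (inner ℝ x' y * inner ℝ z z - inner ℝ y z * inner ℝ x' z)
    + inner ℝ x z * (inner ℝ x' y * inner ℝ y z - inner ℝ y y * inner ℝ x' z) := by
  simp only [inner3, det3]
  ring

lemma point_dist_deriv (E : Ellipse) (y : E3) (t : ℝ) :
    HasDerivAt (fun t => dist (E.point t) y ^ 2)
      (2 * ((E.b^2 - E.a^2) * Real.cos t * Real.sin t
        - E.a * Real.sin t * inner ℝ (E.center - y) E.e₁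
        + E.b * Real.cos t * inner ℝ (E.center - y) E.e₂)) t := by
  have hx : ∀ t, dist (E.point t) y ^ 2 =
      inner ℝ (E.center - y) (E.center - y) + E.a^2 * (Real.cos t)^2 + E.b^2 * (Real.sin t)^2
      + 2 * (E.a * Real.cos t) * inner ℝ (E.center - y) E.e₁
      + 2 * (E.b * Real.sin t) * inner ℝ (E.center - y) E.e₂ := by
    intro t
    have h1 : E.point t - y = (E.center - y) + ((E.a * Real.cos t) • E.e₁ +
        (E.b * Real.sin t) • E.e₂) := by
      simp only [Ellipse.point]; abel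
    have hn1 : inner ℝ E.e₁ E.e₁ = (1:ℝ) := by
      rw [real_inner_self_eq_norm_sq, E.norm_e₁]; norm_num
    have hn2 : inner ℝ E.e₂ E.e₂ = (1:ℝ) := by
      rw [real_inner_self_eq_norm_sq, E.norm_e₂]; norm_num
    have ho : inner ℝ E.e₁ E.e₂ = (0:ℝ) := E.orthogonal
    have ho' : inner ℝ E.e₂ E.e₁ = (0:ℝ) := by rw [real_inner_comm]; exact ho
    rw [dist_eq_norm, ← real_inner_self_eq_norm_sq, h1]
    simp only [inner_add_left, inner_add_right, real_inner_smul_left, real_inner_smul_right,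
      hn1, hn2, ho, ho']
    rw [real_inner_comm E.e₁ (E.center - y), real_inner_comm E.e₂ (E.center - y)]
    ring
  have hfun : (fun t => dist (E.point t) y ^ 2) = fun t =>
      inner ℝ (E.center - y) (E.center - y) + E.a^2 * (Real.cos t)^2 + E.b^2 * (Real.sin t)^2
      + 2 * (E.a * Real.cos t) * inner ℝ (E.center - y) E.e₁
      + 2 * (E.b * Real.sin t) * inner ℝ (E.center - y) E.e₂ := funext hx
  rw [hfun]
  have hc := Real.hasDerivAt_cos t
  have hs := Real.hasDerivAt_sin t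
  have h1 := ((((hc.pow 2).const_mul (E.a^2)).const_add
    (inner ℝ (E.center - y) (E.center - y))).add ((hs.pow 2).const_mul (E.b^2))).add
    (((hc.const_mul E.a).const_mul 2).mul_const (inner ℝ (E.center - y) E.e₁))
  have h2 := h1.add (((hs.const_mul E.b).const_mul 2).mul_const (inner ℝ (E.center - y) E.e₂))
  refine h2.congr_deriv ?_
  simp
  ring


lemma stationary_subset {K E : Ellipse} {τ cc : ℝ} (hτ : τ^2 = 1)
    (hcc : cc^2 + E.b^2 = E.a^2) (hcirc : K.b = K.a)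
    (hF : K.center = E.center + (τ * cc) • E.e₁) :
    stationaryPoints K E ⊆ (fun z : ℝ × ℝ × ℝ × ℝ =>
      ((K.center + (K.a * z.1) • K.e₁ + (K.a * z.2.1) • K.e₂,
        K.center + (E.a * z.2.2.1 - cc) • (τ • E.e₁) + (E.b * z.2.2.2) • E.e₂) : E3 × E3)) ''
      Sol E.a E.b cc K.a (inner ℝ K.e₁ (τ • E.e₁)) (inner ℝ K.e₁ E.e₂)
        (inner ℝ K.e₂ (τ • E.e₁)) (inner ℝ K.e₂ E.e₂) := by
  rintro x ⟨u, v, rfl, hu, hv⟩
  have hK : 0 < K.a := lt_of_lt_of_le K.b_pos K.b_le_a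
  rw [(point_dist_deriv K (E.point v) u).deriv] at hu
  have hv' : deriv (fun t => dist (E.point t) (K.point u) ^ 2) v = 0 := by
    simpa only [dist_comm] using hv
  rw [(point_dist_deriv E (K.point u) v).deriv] at hv'
  have hw1 : K.center - E.point v =
      (τ * cc - E.a * Real.cos v) • E.e₁ - (E.b * Real.sin v) • E.e₂ := by
    rw [hF]; simp only [Ellipse.point, sub_smul]; abel
  have hw2 : E.center - K.point u =
      (-(τ * cc)) • E.e₁ - (K.a * Real.cos u) • K.e₁ - (K.a * Real.sin u) • K.e₂ := by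
    simp only [Ellipse.point, hF, hcirc, neg_smul]; abel
  rw [hw1] at hu
  rw [hw2] at hv'
  simp only [inner_sub_left, real_inner_smul_left] at hu hv'
  rw [real_inner_comm K.e₁ E.e₁, real_inner_comm K.e₁ E.e₂, real_inner_comm K.e₂ E.e₁,
    real_inner_comm K.e₂ E.e₂] at hu
  have hn1 : inner ℝ E.e₁ E.e₁ = (1:ℝ) := by
    rw [real_inner_self_eq_norm_sq, E.norm_e₁]; norm_num
  have ho : inner ℝ E.e₁ E.e₂ = (0:ℝ) := E.orthogonal
  rw [hn1, ho] at hv'
  refine ⟨(Real.cos u, Real.sin u, τ * Real.cos v, Real.sin v), ⟨?_, ?_, ?_, ?_⟩, ?_⟩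
  · exact Real.cos_sq_add_sin_sq u
  · show (τ * Real.cos v)^2 + Real.sin v^2 = 1
    rw [mul_pow, hτ, one_mul]; exact Real.cos_sq_add_sin_sq v
  · show Real.cos u * (inner ℝ K.e₂ (τ • E.e₁) * (E.a * (τ * Real.cos v) - cc) +
        inner ℝ K.e₂ E.e₂ * (E.b * Real.sin v)) =
      Real.sin u * (inner ℝ K.e₁ (τ • E.e₁) * (E.a * (τ * Real.cos v) - cc) +
        inner ℝ K.e₁ E.e₂ * (E.b * Real.sin v))
    simp only [real_inner_smul_right]
    generalize inner ℝ K.e₁ E.e₁ = k11 at *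
    generalize inner ℝ K.e₁ E.e₂ = k12 at *
    generalize inner ℝ K.e₂ E.e₁ = k21 at *
    generalize inner ℝ K.e₂ E.e₂ = k22 at *
    have h0 : K.a * (Real.cos u * (τ * k21 * (E.a * (τ * Real.cos v) - cc) +
        k22 * (E.b * Real.sin v)) -
      Real.sin u * (τ * k11 * (E.a * (τ * Real.cos v) - cc) + k12 * (E.b * Real.sin v))) = 0 := by
      rw [hcirc] at hu
      linear_combination (-1/2) * hu + (K.a * E.a * Real.cos v *
        (Real.cos u * k21 - Real.sin u * k11)) * hτ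
    rcases mul_eq_zero.mp h0 with h | h
    · exact absurd h hK.ne'
    · linarith
  · show cc * Real.sin v * (E.a - cc * (τ * Real.cos v)) =
      K.a * (Real.cos u * (-E.a * Real.sin v * inner ℝ K.e₁ (τ • E.e₁)
        + E.b * (τ * Real.cos v) * inner ℝ K.e₁ E.e₂)
      + Real.sin u * (-E.a * Real.sin v * inner ℝ K.e₂ (τ • E.e₁)
        + E.b * (τ * Real.cos v) * inner ℝ K.e₂ E.e₂))
    simp only [real_inner_smul_right]
    generalize inner ℝ K.e₁ E.e₁ = k11 at *
    generalize inner ℝ K.e₁ E.e₂ = k12 at *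
    generalize inner ℝ K.e₂ E.e₁ = k21 at *
    generalize inner ℝ K.e₂ E.e₂ = k22 at *
    linear_combination (τ/2)*hv' - (E.a*cc*Real.sin v)*hτ - (τ*Real.cos v*Real.sin v)*hcc
  · simp only [Prod.mk.injEq, Ellipse.point]
    refine ⟨?_, ?_⟩
    · rw [hcirc]
    · rw [hF, smul_smul]
      have h1 : (E.a * (τ * Real.cos v) - cc) * τ = E.a * Real.cos v - τ * cc := by
        linear_combination (E.a * Real.cos v) * hτ
      rw [h1, sub_smul]; abel

theorem circle_ellipse_le_ten {K E : Ellipse} (hconf : Confocal K E)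
    (hK : K.eccentricity = 0) (hE : 0 < E.eccentricity) :
    (stationaryPoints K E).encard ≤ 10 := by
  have hKa : 0 < K.a := lt_of_lt_of_le K.b_pos K.b_le_a
  have hEa : 0 < E.a := lt_of_lt_of_le E.b_pos E.b_le_a
  have hKs : Real.sqrt (K.a^2 - K.b^2) = 0 := by
    have h := hK
    simp only [Ellipse.eccentricity] at h
    rcases div_eq_zero_iff.mp h with h | h
    · exact h
    · exact absurd h hKa.ne'
  have hcirc : K.b = K.a := by
    have h1 : K.a^2 - K.b^2 ≤ 0 := Real.sqrt_eq_zero'.mp hKs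
    have h2 : K.a ≤ K.b := by
      have : K.a^2 ≤ K.b^2 := by linarith
      exact (pow_le_pow_iff_left₀ hKa.le K.b_pos.le two_ne_zero).mp this
    exact le_antisymm K.b_le_a h2
  obtain ⟨cc, hccdef⟩ : ∃ cc, cc = Real.sqrt (E.a^2 - E.b^2) := ⟨_, rfl⟩
  have hccpos : 0 < cc := by
    simp only [Ellipse.eccentricity] at hE
    rw [hccdef]
    exact (div_pos_iff_of_pos_right hEa).mp hE
  have hcc : cc^2 + E.b^2 = E.a^2 := by
    have h1 : 0 < E.a^2 - E.b^2 := by
      rw [hccdef] at hccpos; exact Real.sqrt_pos.mp hccpos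
    rw [hccdef, Real.sq_sqrt h1.le]; ring
  obtain ⟨F, hF1, hF2⟩ := hconf
  have hFK : F = K.center := by
    rcases hF1 with h | h
    · rw [h, hKs]; simp
    · rw [Set.mem_singleton_iff] at h
      rw [h, hKs]; simp
  have hτ : ∃ τ : ℝ, τ^2 = 1 ∧ K.center = E.center + (τ * cc) • E.e₁ := by
    rcases hF2 with h | h
    · refine ⟨1, by norm_num, ?_⟩
      rw [← hFK, h, one_mul, hccdef]
    · rw [Set.mem_singleton_iff] at h
      refine ⟨-1, by norm_num, ?_⟩
      rw [← hFK, h, hccdef, neg_one_mul, neg_smul, sub_eq_add_neg]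
  obtain ⟨τ, hτ2, hcen⟩ := hτ
  have hsub := stationary_subset hτ2 hcc hcirc hcen
  refine (Set.encard_le_encard hsub).trans ((Set.encard_image_le _ _).trans ?_)
  have hy : inner ℝ K.e₁ K.e₁ = (1:ℝ) := by
    rw [real_inner_self_eq_norm_sq, K.norm_e₁]; norm_num
  have hz : inner ℝ K.e₂ K.e₂ = (1:ℝ) := by
    rw [real_inner_self_eq_norm_sq, K.norm_e₂]; norm_num
  have hyz : inner ℝ K.e₁ K.e₂ = (0:ℝ) := K.orthogonal
  have hP : inner ℝ (τ • E.e₁) (τ • E.e₁) = (1:ℝ) := by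
    rw [real_inner_smul_left, real_inner_smul_right, real_inner_self_eq_norm_sq, E.norm_e₁]
    linear_combination hτ2
  have hQ : inner ℝ E.e₂ E.e₂ = (1:ℝ) := by
    rw [real_inner_self_eq_norm_sq, E.norm_e₂]; norm_num
  have hPQ : inner ℝ (τ • E.e₁) E.e₂ = (0:ℝ) := by
    rw [real_inner_smul_left, E.orthogonal, mul_zero]
  have g1 := gram (τ • E.e₁) (τ • E.e₁) K.e₁ K.e₂
  have g2 := gram E.e₂ E.e₂ K.e₁ K.e₂
  have g3 := gram (τ • E.e₁) E.e₂ K.e₁ K.e₂
  rw [hy, hz, hyz, hP] at g1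
  rw [hy, hz, hyz, hQ] at g2
  rw [hy, hz, hyz, hPQ] at g3
  rw [real_inner_comm K.e₁ (τ • E.e₁), real_inner_comm K.e₂ (τ • E.e₁)] at g1 g3
  rw [real_inner_comm K.e₁ E.e₂, real_inner_comm K.e₂ E.e₂] at g2 g3
  exact Sol_le_ten (w1 := det3 (τ • E.e₁) K.e₁ K.e₂) (w2 := det3 E.e₂ K.e₁ K.e₂)
    hEa E.b_pos hccpos hKa hcc (by linear_combination g1) (by linear_combination g2)
    (by linear_combination g3)

lemma stationaryPoints_swap (E₁ E₂ : Ellipse) :
    stationaryPoints E₁ E₂ = Prod.swap '' stationaryPoints E₂ E₁ := by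
  ext x
  constructor
  · rintro ⟨u, v, rfl, hu, hv⟩
    refine ⟨(E₂.point v, E₁.point u), ⟨v, u, rfl, ?_, ?_⟩, rfl⟩
    · simpa only [dist_comm] using hv
    · simpa only [dist_comm] using hu
  · rintro ⟨_, ⟨v, u, rfl, hv, hu⟩, rfl⟩
    refine ⟨u, v, rfl, ?_, ?_⟩
    · simpa only [dist_comm] using hu
    · simpa only [dist_comm] using hv

theorem stationaryPoints_le_ten {E₁ E₂ : Ellipse} (hconf : Confocal E₁ E₂)
    (h : (E₁.eccentricity = 0 ∧ 0 < E₂.eccentricity) ∨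
      (0 < E₁.eccentricity ∧ E₂.eccentricity = 0)) :
    (stationaryPoints E₁ E₂).encard ≤ 10 := by
  rcases h with ⟨h1, h2⟩ | ⟨h1, h2⟩
  · exact circle_ellipse_le_ten hconf h1 h2
  · rw [stationaryPoints_swap]
    refine (Set.encard_image_le _ _).trans ?_
    exact circle_ellipse_le_ten (by obtain ⟨F, a, b⟩ := hconf; exact ⟨F, b, a⟩) h2 h1

end Pool.Agent.Helper19.Moid
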