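import Pool.Agent.Helper19.Moid.LemmaK

namespace Pool.Agent.Helper19.Moid

lemma N1_eq {α β γ e : ℝ} (x : ℝ) : N1 α β γ e x =
    α * M e x - (α * x + β) * (x / L x + e) - Q α β γ x / L x ^ 3 := by
  have hl := L_sq x
  have hl0 := L_ne x
  simp only [N1, M, Q]
  generalize L x = l at hl hl0
  field_simp
  grind

/-- On the good branch, `T < 0` wherever `S ≥ 0`. -/
lemma T_neg_of_S_nonneg {p r e0 : ℝ} (hp : 0 < p) (hr : 0 < r) (hpr : p^2 + r^2 < 1)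
    (he0 : 0 < e0) (he1 : e0 < 1) (x : ℝ)
    (hS : 0 ≤ S (1 - r^2) (p*r) (1 - p^2) (-e0) x) :
    T (1 - r^2) (p*r) (1 - p^2) (-e0) x < 0 := by
  obtain ⟨l, hl⟩ : ∃ l, l = L x := ⟨_, rfl⟩
  have hl0 : 0 < l := by rw [hl]; exact L_pos x
  have hl2 : l^2 = 1 + x^2 := by rw [hl]; exact L_sq x
  obtain ⟨σ, hσ⟩ : ∃ σ, σ = Real.sqrt (p^2 + r^2) := ⟨_, rfl⟩
  have hσ0 : 0 < σ := by rw [hσ]; exact Real.sqrt_pos.mpr (by positivity)
  have hσ2 : σ^2 = p^2 + r^2 := by rw [hσ]; exact Real.sq_sqrt (by positivity)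
  obtain ⟨u, hu⟩ : ∃ u, u = x / l := ⟨_, rfl⟩
  obtain ⟨s, hs⟩ : ∃ s, s = 1 / l := ⟨_, rfl⟩
  have hs0 : 0 < s := by rw [hs]; positivity
  have hsl : s * l = 1 := by rw [hs]; field_simp
  have hul : u * l = x := by rw [hu]; field_simp
  have hus : u^2 + s^2 = 1 := by
    rw [hu, hs]; field_simp; linarith
  obtain ⟨a1, ha1⟩ : ∃ a1, a1 = p / σ := ⟨_, rfl⟩
  obtain ⟨a2, ha2⟩ : ∃ a2, a2 = r / σ := ⟨_, rfl⟩
  have ha10 : 0 < a1 := by rw [ha1]; positivity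
  have ha20 : 0 < a2 := by rw [ha2]; positivity
  have hpσ : p = σ * a1 := by rw [ha1]; field_simp
  have hrσ : r = σ * a2 := by rw [ha2]; field_simp
  have haa : a1^2 + a2^2 = 1 := by
    rw [ha1, ha2]; field_simp; linarith
  obtain ⟨c, hc⟩ : ∃ c, c = a1*u + a2*s := ⟨_, rfl⟩
  obtain ⟨d, hd⟩ : ∃ d, d = a2*u - a1*s := ⟨_, rfl⟩
  have hcd : c^2 + d^2 = 1 := by
    have : c^2 + d^2 = (a1^2+a2^2)*(u^2+s^2) := by rw [hc, hd]; ring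
    rw [this, haa, hus]; norm_num
  have hA1 : u*c - s*d = a1 := by
    have : u*c - s*d = a1*(u^2+s^2) := by rw [hc, hd]; ring
    rw [this, hus, mul_one]
  have hA2 : s*c + u*d = a2 := by
    have : s*c + u*d = a2*(u^2+s^2) := by rw [hc, hd]; ring
    rw [this, hus, mul_one]
  obtain ⟨δ, hδ⟩ : ∃ δ, δ = 1 - σ^2 := ⟨_, rfl⟩
  have hδ0 : 0 ≤ δ := by rw [hδ, hσ2]; linarith
  have hδ1 : δ < 1 := by rw [hδ]; linarith [pow_pos hσ0 2]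
  have hs2 : s^2 = 1 - u^2 := by linarith
  -- S in terms of c, d
  have hSeq : S (1 - r^2) (p*r) (1 - p^2) (-e0) x =
      -(3 * σ^2 * (-(s*(1-e0*u)*(e0-u)*(c^2-d^2)) +
      (2*(1-e0*u)^2 - 3*(1-e0*u)*s^2 - (e0-u)^2)*c*d)) := by
    have h1 : S (1 - r^2) (p*r) (1 - p^2) (-e0) x =
        3 * (-(p*r)*(1+e0^2) - e0*((p^2-r^2)*s^5 - p*r*(u*(5*s^4+5*s^2*u^2+2*u^4)))) := by
      simp only [S]
      rw [← hl, hu, hs]
      field_simp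
      ring
    rw [h1, hpσ, hrσ, ← hA1, ← hA2]
    have h5 : s^5 = s*(s^2)^2 := by ring
    have h4 : s^4 = (s^2)^2 := by ring
    have h6 : (2*(1-e0*u)^2 - 3*(1-e0*u)*s^2 - (e0-u)^2) =
      (2*(1-e0*u)^2 - 3*(1-e0*u)*(1-u^2) - (e0-u)^2) := by rw [hs2]
    rw [h6, h5, h4]
    have h7 : (u*c-s*d)*(s*c+u*d) = u*s*(c^2-d^2) + (u^2-s^2)*(c*d) := by ring
    have h8 : (u*c-s*d)^2 - (s*c+u*d)^2 = (u^2-s^2)*(c^2-d^2) - 4*(u*s)*(c*d) := by ring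
    have h9 : 3 * (-(σ * (u*c-s*d) * (σ*(s*c+u*d)))*(1+e0^2) -
        e0*(((σ*(u*c-s*d))^2-(σ*(s*c+u*d))^2)*(s*(s^2)^2) -
          σ*(u*c-s*d)*(σ*(s*c+u*d))*(u*(5*(s^2)^2+5*s^2*u^2+2*u^4)))) =
        3*σ^2*(-((u*c-s*d)*(s*c+u*d))*(1+e0^2) -
        e0*(((u*c-s*d)^2 - (s*c+u*d)^2)*(s*(s^2)^2) -
          ((u*c-s*d)*(s*c+u*d))*(u*(5*(s^2)^2+5*s^2*u^2+2*u^4)))) := by ring
    rw [h9, h7, h8, hs2]
    have h10 : u*s*s = u*(1-u^2) := by rw [mul_assoc, ← sq, hs2]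
    linear_combination (12*σ^2*e0*c*d*(1-u^2)^2) * h10
  have hkeyS : -(s*(1-e0*u)*(e0-u)*(c^2-d^2)) +
      (2*(1-e0*u)^2 - 3*(1-e0*u)*s^2 - (e0-u)^2)*c*d ≤ 0 := by
    rw [hSeq] at hS
    by_contra hcon
    push Not at hcon
    have : 0 < 3*σ^2*(-(s*(1-e0*u)*(e0-u)*(c^2-d^2)) +
      (2*(1-e0*u)^2 - 3*(1-e0*u)*s^2 - (e0-u)^2)*c*d) := by positivity
    linarith
  have hkey := key_all hus hcd hs0 (by rw [hA1]; exact ha10) (by rw [hA2]; exact ha20)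
    he0 he1 hδ0 hδ1 hkeyS
  -- T in terms of key
  obtain ⟨V, hV⟩ : ∃ V, V = c^2 + δ*d^2 := ⟨_, rfl⟩
  obtain ⟨w, hw⟩ : ∃ w, w = (1-δ)*c*d := ⟨_, rfl⟩
  obtain ⟨qq, hqq⟩ : ∃ qq, qq = u*V - s*w := ⟨_, rfl⟩
  have hMx : M (-e0) x = l*(1-e0*u) := by
    simp only [M]; rw [← hl, ← hul]; ring
  have hVx : Q (1 - r^2) (p*r) (1 - p^2) x = l^2*V := by
    have h1 : V = (1-r^2)*u^2 + 2*(p*r)*(u*s) + (1-p^2)*s^2 := by
      rw [hV, hδ, hpσ, hrσ, hc, hd]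
      have h2 : (a1*u+a2*s)^2 + (1-σ^2)*(a2*u-a1*s)^2 =
        (a1^2+a2^2)*(u^2+s^2) - σ^2*(a2*u-a1*s)^2 := by ring
      rw [h2, haa, hus]
      linear_combination -hus
    rw [h1]
    simp only [Q]
    rw [← hul]
    have h3 : l^2*((1-r^2)*u^2 + 2*(p*r)*(u*s) + (1-p^2)*s^2) =
      (1-r^2)*(u*l)^2 + 2*(p*r)*(u*l)*(s*l) + (1-p^2)*(s*l)^2 := by ring
    rw [h3, hsl]; ring
  have hqx : (1-r^2)*x + p*r = l*qq := by
    have h1 : qq = (1-r^2)*u + p*r*s := by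
      rw [hqq, hV, hw, hδ]
      have h2 : u*(c^2+(1-σ^2)*d^2) - s*((1-(1-σ^2))*c*d) =
        u*(c^2+d^2) - σ^2*d*(s*c+u*d) := by ring
      rw [h2, hcd, hA2, hd, hpσ, hrσ]; ring
    rw [h1, ← hul]
    linear_combination (p*r) * (-hsl)
  have hαV : (1-r^2)*V = qq^2 + δ*s^2 := by
    have h1 : qq = (1-r^2)*u + p*r*s := by
      have := hqx
      rw [← hul] at this
      have h2 : l*qq = l*((1-r^2)*u + p*r*s) := by
        rw [← this]; linear_combination (-(p*r)) * hsl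
      exact mul_left_cancel₀ hl0.ne' h2
    have h2 : V = (1-r^2)*u^2 + 2*(p*r)*(u*s) + (1-p^2)*s^2 := by
      have h3 : l^2*V = l^2*((1-r^2)*u^2 + 2*(p*r)*(u*s) + (1-p^2)*s^2) := by
        rw [← hVx]
        simp only [Q]
        rw [← hul]
        have h3 : l^2*((1-r^2)*u^2 + 2*(p*r)*(u*s) + (1-p^2)*s^2) =
          (1-r^2)*(u*l)^2 + 2*(p*r)*(u*l)*(s*l) + (1-p^2)*(s*l)^2 := by ring
        rw [h3, hsl]; ring
      exact mul_left_cancel₀ (pow_ne_zero 2 hl0.ne') h3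
    rw [h1, h2, hδ, hσ2]; ring
  have hM' : x / L x + (-e0) = u - e0 := by rw [← hl, ← hu]; ring
  have hNx : N (1 - r^2) (p*r) (1 - p^2) (-e0) x = l^2*(qq*(1-e0*u) + V*(e0-u)) := by
    rw [N_eq, hM', hqx, hMx, hVx]; ring
  have hN1x : N1 (1 - r^2) (p*r) (1 - p^2) (-e0) x =
      l*((1-r^2)*(1-e0*u) + qq*(e0-u) - V*s^2) := by
    rw [N1_eq, hM', hqx, hMx, hVx, ← hl]
    have : l^2*V/l^3 = l*(V*s^2) := by
      rw [hs]; field_simp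
    rw [this]; ring
  have hT : T (1 - r^2) (p*r) (1 - p^2) (-e0) x = l^4*s*(s * (δ * (1 - e0*u)^2 -
      (c^2 + δ*d^2)^2 * ((e0-u)^2 + s^2)) +
      (c^2 + δ*d^2) * ((1-δ)*c*d) * (1-e0*u) * (e0-u)) := by
    simp only [T]
    rw [hMx, hVx, hN1x, hNx, ← hV, ← hw]
    have h1 : l*(1-e0*u)*(l^2*V)*(l*((1-r^2)*(1-e0*u) + qq*(e0-u) - V*s^2)) -
        (l^2*(qq*(1-e0*u) + V*(e0-u)))^2 =
        l^4*((1-e0*u)^2*((1-r^2)*V - qq^2) - qq*(1-e0*u)*V*(e0-u)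
          - V^2*((e0-u)^2 + (1-e0*u)*s^2)) := by ring
    rw [h1, hαV, hqq]
    have h2 : (e0-u)^2 + (1-e0*u)*s^2 = s^2*((e0-u)^2+s^2) - u*(1-e0*u)*(e0-u) := by
      rw [hs2]; ring
    rw [h2]; ring
  rw [hT]
  exact mul_neg_of_pos_of_neg (by positivity) hkey

lemma count_le_four {p r e : ℝ} (hp : 0 < p) (hr : 0 < r) (hpr : p^2 + r^2 < 1)
    (he0 : e < 0) (he1 : -1 < e) {h : ℝ} (hh : 0 < h) :
    {x | |H (1 - r^2) (p*r) (1 - p^2) e x| = h}.encard ≤ 4 := by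
  have hQ : ∀ x, 0 < Q (1 - r^2) (p*r) (1 - p^2) x := by
    intro x
    have h1 : Q (1 - r^2) (p*r) (1 - p^2) x = (1-p^2-r^2)*(1+x^2) + (p*x+r)^2 := by
      simp only [Q]; ring
    rw [h1]
    have : 0 < 1-p^2-r^2 := by linarith
    positivity
  have ha : |e| < 1 := by rw [abs_of_neg he0]; linarith
  have hT : {x | T (1 - r^2) (p*r) (1 - p^2) e x = 0}.encard ≤ 1 := by
    refine zeros_le_one (fun x => hasDerivAt_T x) ?_
    intro x hx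
    have hS : S (1 - r^2) (p*r) (1 - p^2) e x < 0 := by
      by_contra hcon
      push Not at hcon
      have := T_neg_of_S_nonneg (e0 := -e) hp hr hpr (by linarith) (by linarith) x
        (by rw [neg_neg]; exact hcon)
      rw [neg_neg] at this
      linarith
    exact mul_neg_of_pos_of_neg (hQ x) hS
  have hN : {x | N (1 - r^2) (p*r) (1 - p^2) e x = 0}.encard ≤ 2 :=
    zeros_N_le (by positivity) ha
  have := count_le ha hQ hh hT hN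
  exact this.trans (by norm_num)

end Pool.Agent.Helper19.Moid
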