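import Pool.Agent.Helper19.Moid.Zeros

namespace Pool.Agent.Helper19.Moid

/-- Bernstein form of the key quadratic. -/
lemma key_identity {u s c d e0 δ : ℝ} (hus : u^2 + s^2 = 1) (hcd : c^2 + d^2 = 1) :
    s * (δ * (1 - e0*u)^2 - (c^2 + δ*d^2)^2 * ((e0-u)^2 + s^2)) +
      (c^2 + δ*d^2) * ((1-δ)*c*d) * (1-e0*u) * (e0-u)
    = (c^3 * ((1-e0*u)*(e0-u)*d - s*((e0-u)^2+s^2)*c)) * (1-δ)^2
      + (-2*s*((e0-u)^2+s^2)*c^2 + s*(1-e0*u)^2 + (1-e0*u)*(e0-u)*c*d) * (δ*(1-δ))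
      + (-(e0^2*s^3)) * δ^2 := by
  have hd : d^2 = 1 - c^2 := by linarith
  have hs : s^2 = 1 - u^2 := by linarith
  have h1 : c^2 + δ*d^2 = c^2*(1-δ) + δ := by rw [hd]; ring
  rw [h1]
  have h2 : s^3 = s * (1-u^2) := by rw [← hs]; ring
  rw [h2, hs]
  ring

lemma combine {T0 T1 T2 δ : ℝ} (h0 : T0 < 0) (h1 : T1 < 0) (h2 : T2 < 0)
    (hδ0 : 0 ≤ δ) (hδ1 : δ < 1) : T0*(1-δ)^2 + T1*(δ*(1-δ)) + T2*δ^2 < 0 := by
  have a : T0*(1-δ)^2 < 0 := mul_neg_of_neg_of_pos h0 (by have : 0 < 1 - δ := by linarith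
                                                          positivity)
  have b : T1*(δ*(1-δ)) ≤ 0 := mul_nonpos_of_nonpos_of_nonneg h1.le
    (mul_nonneg hδ0 (by linarith))
  have c : T2*δ^2 ≤ 0 := mul_nonpos_of_nonpos_of_nonneg h2.le (by positivity)
  linarith

lemma key_case1 {u s c d e0 δ : ℝ} (hus : u^2 + s^2 = 1) (hcd : c^2 + d^2 = 1)
    (hs : 0 < s) (hA1 : 0 < u*c - s*d) (hA2 : 0 < s*c + u*d) (he0 : 0 < e0) (he1 : e0 < 1)
    (hδ0 : 0 ≤ δ) (hδ1 : δ < 1)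
    (hS : -(s*(1-e0*u)*(e0-u)*(c^2-d^2)) +
      (2*(1-e0*u)^2 - 3*(1-e0*u)*s^2 - (e0-u)^2)*c*d ≤ 0)
    (hu : 0 < u) (hE : 0 ≤ e0 - u) :
    s * (δ * (1 - e0*u)^2 - (c^2 + δ*d^2)^2 * ((e0-u)^2 + s^2)) +
      (c^2 + δ*d^2) * ((1-δ)*c*d) * (1-e0*u) * (e0-u) < 0 := by
  rw [key_identity hus hcd]
  have hc : 0 < c := by
    have : c = (u*c - s*d)*u + (s*c+u*d)*s := by linear_combination (-c)*hus
    rw [this]; positivity
  have hu1 : u < 1 := by linarith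
  have hμ : 0 < 1 - e0*u := by (have := mul_lt_mul_of_pos_right he1 hu; linarith)
  have hK : 0 < (e0-u)^2 + (1-e0*u)*s^2 := by positivity
  refine combine ?_ ?_ ?_ hδ0 hδ1
  · have h1 : s * ((1-e0*u)*(e0-u)*d - s*((e0-u)^2+s^2)*c) =
        -(c*((e0-u)^2 + (1-e0*u)*s^2)) - (1-e0*u)*(e0-u)*(u*c - s*d) := by
      have hs2 : s^2 = 1 - u^2 := by linarith
      have : s*((1-e0*u)*(e0-u)*d - s*((e0-u)^2+s^2)*c) =
        (1-e0*u)*(e0-u)*(s*d) - s^2*((e0-u)^2+s^2)*c := by ring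
      rw [this, hs2]; ring
    have h2 : s * ((1-e0*u)*(e0-u)*d - s*((e0-u)^2+s^2)*c) < 0 := by
      rw [h1]
      have : 0 < c*((e0-u)^2 + (1-e0*u)*s^2) := by positivity
      have : 0 ≤ (1-e0*u)*(e0-u)*(u*c - s*d) := by positivity
      linarith
    have h3 : (1-e0*u)*(e0-u)*d - s*((e0-u)^2+s^2)*c < 0 := by
      by_contra hcon
      push Not at hcon
      have := mul_nonneg hs.le hcon
      linarith
    exact mul_neg_of_pos_of_neg (by positivity) h3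
  · rcases le_or_gt 0 d with hd | hd
    · have h1 : s * (-2*s*((e0-u)^2+s^2)*c^2 + s*(1-e0*u)^2 + (1-e0*u)*(e0-u)*c*d) =
          -(s^2*(2*(e0-u)^2 + s^2 + u*(e0-u))*c^2)
          - (1-e0*u)*(2*(1-e0*u)*u + (e0-u))*c*(u*c-s*d) + (1-e0*u)^2*(u*c-s*d)^2 := by
        grind
      have h2 : (1-e0*u)^2*(u*c-s*d)^2 ≤ (1-e0*u)^2*(u*c-s*d)*(u*c) := by
        have : u*c - s*d ≤ u*c := by linarith [mul_nonneg hs.le hd]
        have h3 : 0 ≤ (1-e0*u)^2*(u*c-s*d) := by positivity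
        linarith [mul_le_mul_of_nonneg_left this h3]
      have h3 : 0 < s^2*(2*(e0-u)^2 + s^2 + u*(e0-u))*c^2 := by positivity
      have h4 : 0 ≤ (1-e0*u)*(e0-u)*c*(u*c-s*d) := by positivity
      have h5 : 0 ≤ (1-e0*u)^2*u*c*(u*c-s*d) := by positivity
      have h6 : s * (-2*s*((e0-u)^2+s^2)*c^2 + s*(1-e0*u)^2 + (1-e0*u)*(e0-u)*c*d) < 0 := by
        rw [h1]; linarith
      by_contra hcon
      push Not at hcon
      have := mul_nonneg hs.le hcon
      linarith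
    · have hh : 2*(1-e0*u)^2 - 3*(1-e0*u)*s^2 - (e0-u)^2 < 0 := by
        have : 2*(1-e0*u)^2 - 3*(1-e0*u)*s^2 - (e0-u)^2 =
          -((1-e0*u)*(s^2 + 2*u*(e0-u))) - (e0-u)^2 := by
          have hs2 : s^2 = 1 - u^2 := by linarith
          rw [hs2]; ring
        rw [this]
        have : 0 < (1-e0*u)*(s^2 + 2*u*(e0-u)) := by positivity
        have : 0 ≤ (e0-u)^2 := by positivity
        linarith
      have hcd2 : d^2 ≤ c^2 := by
        by_contra hcon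
        push Not at hcon
        have h1 : 0 < (2*(1-e0*u)^2 - 3*(1-e0*u)*s^2 - (e0-u)^2)*c*d := by
          have : 0 < -(2*(1-e0*u)^2 - 3*(1-e0*u)*s^2 - (e0-u)^2) := by linarith
          have h2 : 0 < -d := by linarith
          have := mul_pos (mul_pos this hc) h2
          linarith
        have h2 : 0 ≤ s*(1-e0*u)*(e0-u)*(d^2-c^2) := by
          have : 0 ≤ d^2 - c^2 := by linarith
          positivity
        linarith
      have h1 : (e0-u)^2 + s^2 = (1-e0*u)^2 + e0^2*s^2 := by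
        have hs2 : s^2 = 1 - u^2 := by linarith
        rw [hs2]; ring
      have h2 : (1-e0*u)*(e0-u)*c*d ≤ 0 := by
        have : 0 ≤ (1-e0*u)*(e0-u)*c*(-d) := by
          have : 0 ≤ -d := by linarith
          positivity
        linarith
      have h3 : s*(1-e0*u)^2 ≤ 2*s*(1-e0*u)^2*c^2 := by
        have : 1 ≤ 2*c^2 := by linarith
        have h4 : 0 ≤ s*(1-e0*u)^2 := by positivity
        linarith [mul_le_mul_of_nonneg_left this h4]
      rw [h1]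
      have h4 : 0 < s^3*e0^2*c^2 := by positivity
      linarith
  · have : 0 < e0^2*s^3 := by positivity
    linarith

lemma key_case2 {u s c d e0 δ : ℝ} (hus : u^2 + s^2 = 1) (hcd : c^2 + d^2 = 1)
    (hs : 0 < s) (hA1 : 0 < u*c - s*d) (hA2 : 0 < s*c + u*d) (he0 : 0 < e0) (he1 : e0 < 1)
    (hδ0 : 0 ≤ δ) (hδ1 : δ < 1)
    (hS : -(s*(1-e0*u)*(e0-u)*(c^2-d^2)) +
      (2*(1-e0*u)^2 - 3*(1-e0*u)*s^2 - (e0-u)^2)*c*d ≤ 0)
    (hu : 0 < u) (hE : e0 - u < 0) :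
    s * (δ * (1 - e0*u)^2 - (c^2 + δ*d^2)^2 * ((e0-u)^2 + s^2)) +
      (c^2 + δ*d^2) * ((1-δ)*c*d) * (1-e0*u) * (e0-u) < 0 := by
  rw [key_identity hus hcd]
  have hc : 0 < c := by
    have : c = (u*c - s*d)*u + (s*c+u*d)*s := by linear_combination (-c)*hus
    rw [this]; positivity
  have hu1 : u ≤ 1 := by (have : u^2 ≤ 1 := by linarith [sq_nonneg s]); exact (sq_le_one_iff₀ hu.le).mp this
  have hμ : 0 < 1 - e0*u := by (have := mul_lt_mul_of_pos_right he1 hu; linarith)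
  obtain ⟨ε, hε⟩ : ∃ ε, ε = u - e0 := ⟨_, rfl⟩
  have hε0 : 0 < ε := by linarith
  have hd : 0 < d := by
    have h1 : u * (-(s*(1-e0*u)*(e0-u)*(c^2-d^2)) +
      (2*(1-e0*u)^2 - 3*(1-e0*u)*s^2 - (e0-u)^2)*c*d) =
      -((1-e0*u)*(e0-u)*(u*c-s*d)*(s*c+u*d)) - e0*s^4*c*d := by
      grind
    have h2 : u * (-(s*(1-e0*u)*(e0-u)*(c^2-d^2)) +
      (2*(1-e0*u)^2 - 3*(1-e0*u)*s^2 - (e0-u)^2)*c*d) ≤ 0 :=
      mul_nonpos_of_nonneg_of_nonpos hu.le hS
    have h3 : 0 < (1-e0*u)*ε*(u*c-s*d)*(s*c+u*d) := by positivity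
    have h4 : 0 < e0*s^4*c*d := by
      rw [hε] at h3
      linarith
    have h5 : 0 < e0*s^4*c := by positivity
    exact (mul_pos_iff_of_pos_left h5).mp h4
  -- Λ = s d / u
  obtain ⟨Λ, hΛ⟩ : ∃ Λ, Λ = s*d/u := ⟨_, rfl⟩
  have hΛd : s*d = u*Λ := by rw [hΛ]; field_simp
  have hΛ0 : 0 < Λ := by rw [hΛ]; positivity
  have hΛc : Λ < c := by
    have : u*Λ < u*c := by rw [← hΛd]; linarith
    exact lt_of_mul_lt_mul_left this hu.le
  have hs2 : s^2 = 1 - u^2 := by linarith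
  have he0' : e0 = u - ε := by linarith
  have hK : s^2*(ε^2+s^2) + (1-e0*u)*ε*u = ε^2 + (1-e0*u)*s^2 := by
    rw [he0', hs2]; ring
  -- s T0 < - c^2 Λ^2 ε^2
  have hT0 : s*(c^3 * ((1-e0*u)*(e0-u)*d - s*((e0-u)^2+s^2)*c)) < -(c^2*Λ^2*ε^2) := by
    have h1 : s*(c^3 * ((1-e0*u)*(e0-u)*d - s*((e0-u)^2+s^2)*c)) =
        -(c^2 * (c * (s^2*(ε^2+s^2)*c + (1-e0*u)*ε*u*Λ))) := by
      have h2 : s*(c^3 * ((1-e0*u)*(e0-u)*d - s*((e0-u)^2+s^2)*c)) =
        c^3*((1-e0*u)*(e0-u)*(s*d) - s^2*((e0-u)^2+s^2)*c) := by ring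
      rw [h2, hΛd]
      have : e0 - u = -ε := by linarith
      rw [this]; ring
    rw [h1]
    have h3 : Λ^2*ε^2 < c * (s^2*(ε^2+s^2)*c + (1-e0*u)*ε*u*Λ) := by
      have h4 : Λ^2 * (s^2*(ε^2+s^2)) ≤ c^2*(s^2*(ε^2+s^2)) := by
        have : Λ^2 ≤ c^2 := by exact pow_le_pow_left₀ hΛ0.le hΛc.le 2
        have h5 : 0 ≤ s^2*(ε^2+s^2) := by positivity
        exact mul_le_mul_of_nonneg_right this h5
      have h6 : Λ^2 * ((1-e0*u)*ε*u) ≤ c*Λ*((1-e0*u)*ε*u) := by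
        have : Λ^2 ≤ c*Λ := by linarith [mul_le_mul_of_nonneg_right hΛc.le hΛ0.le]
        have h5 : 0 ≤ (1-e0*u)*ε*u := by positivity
        exact mul_le_mul_of_nonneg_right this h5
      have h7 : 0 < Λ^2 * ((1-e0*u)*s^2) := by positivity
      have h8 : Λ^2*(s^2*(ε^2+s^2)) + Λ^2*((1-e0*u)*ε*u) = Λ^2*ε^2 + Λ^2*((1-e0*u)*s^2) := by
        rw [← mul_add, hK]; ring
      linarith
    have h9 : 0 < c^2 := by positivity
    linarith [mul_lt_mul_of_pos_left h3 h9]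
  have hT1 : s*(-2*s*((e0-u)^2+s^2)*c^2 + s*(1-e0*u)^2 + (1-e0*u)*(e0-u)*c*d) ≤
      2*c*Λ*e0*s^2*ε := by
    have h1 : s*(-2*s*((e0-u)^2+s^2)*c^2 + s*(1-e0*u)^2 + (1-e0*u)*(e0-u)*c*d) =
        c^2*(-2*s^2*(ε^2+s^2) + s^2*(1-e0*u)^2) + (1-e0*u)^2*(u^2*Λ^2)
          - (1-e0*u)*ε*c*u*Λ := by
      have h2 : s*(-2*s*((e0-u)^2+s^2)*c^2 + s*(1-e0*u)^2 + (1-e0*u)*(e0-u)*c*d) =
        -2*s^2*((e0-u)^2+s^2)*c^2 + s^2*(1-e0*u)^2*(c^2+d^2) + (1-e0*u)*(e0-u)*c*(s*d) := by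
        rw [hcd]; ring
      have h3 : s^2*(1-e0*u)^2*(c^2+d^2) = s^2*(1-e0*u)^2*c^2 + (1-e0*u)^2*(s*d)^2 := by ring
      rw [h2, h3, hΛd]
      have : e0 - u = -ε := by linarith
      rw [this]; ring
    rw [h1]
    have hcΛ : c*Λ ≤ c^2 := by linarith [mul_le_mul_of_nonneg_left hΛc.le hc.le]
    have hΛΛ : Λ^2 ≤ c*Λ := by linarith [mul_le_mul_of_nonneg_right hΛc.le hΛ0.le]
    have hneg : -2*s^2*(ε^2+s^2) + s^2*(1-e0*u)^2 ≤ 0 := by
      have h4 : ε^2 + s^2 = (1-e0*u)^2 + e0^2*s^2 := by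
        rw [he0', hs2]; ring
      rw [h4]
      have : 0 ≤ s^2*(1-e0*u)^2 := by positivity
      have : 0 ≤ s^2*(e0^2*s^2) := by positivity
      linarith
    have h5 : c^2*(-2*s^2*(ε^2+s^2) + s^2*(1-e0*u)^2) ≤
        (c*Λ)*(-2*s^2*(ε^2+s^2) + s^2*(1-e0*u)^2) :=
      mul_le_mul_of_nonpos_right hcΛ hneg
    have h6 : (1-e0*u)^2*(u^2*Λ^2) ≤ (1-e0*u)^2*u^2*(c*Λ) := by
      have : 0 ≤ (1-e0*u)^2*u^2 := by positivity
      linarith [mul_le_mul_of_nonneg_left hΛΛ this]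
    have h7 : (-2*s^2*(ε^2+s^2) + s^2*(1-e0*u)^2) + (1-e0*u)^2*u^2 - (1-e0*u)*ε*u =
        s^2*(u*ε - 2*ε^2 - s^2) := by
      rw [he0', hs2]; ring
    have h8 : s^2*(u*ε - 2*ε^2 - s^2) ≤ 2*e0*s^2*ε := by
      have : u*ε - 2*ε^2 - s^2 ≤ 2*e0*ε := by
        rw [he0']
        have : 0 < u*ε := by positivity
        linarith [sq_nonneg s]
      linarith [mul_le_mul_of_nonneg_left this (sq_nonneg s)]
    have h9 : 0 < c*Λ := by positivity
    (have h10 : (c*Λ)*((-2*s^2*(ε^2+s^2) + s^2*(1-e0*u)^2) + (1-e0*u)^2*u^2 - (1-e0*u)*ε*u) = (c*Λ)*(s^2*(u*ε - 2*ε^2 - s^2)) := by rw [h7]); have h11 := mul_le_mul_of_nonneg_left h8 h9.le; linarith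
  have hfin : s * ((c^3 * ((1-e0*u)*(e0-u)*d - s*((e0-u)^2+s^2)*c)) * (1-δ)^2
      + (-2*s*((e0-u)^2+s^2)*c^2 + s*(1-e0*u)^2 + (1-e0*u)*(e0-u)*c*d) * (δ*(1-δ))
      + (-(e0^2*s^3)) * δ^2) < 0 := by
    have h1 : 0 < (1-δ)^2 := by
      have : 0 < 1 - δ := by linarith
      positivity
    have h2 : 0 ≤ δ*(1-δ) := mul_nonneg hδ0 (by linarith)
    have h3 := mul_lt_mul_of_pos_right hT0 h1
    have h4 := mul_le_mul_of_nonneg_right hT1 h2
    have h5 : -(c^2*Λ^2*ε^2)*(1-δ)^2 + 2*c*Λ*e0*s^2*ε*(δ*(1-δ)) + s*(-(e0^2*s^3))*δ^2 =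
        -((c*Λ*ε*(1-δ) - e0*s^2*δ)^2) := by ring
    have h6 := sq_nonneg (c*Λ*ε*(1-δ) - e0*s^2*δ)
    have h7 : s * ((c^3 * ((1-e0*u)*(e0-u)*d - s*((e0-u)^2+s^2)*c)) * (1-δ)^2
      + (-2*s*((e0-u)^2+s^2)*c^2 + s*(1-e0*u)^2 + (1-e0*u)*(e0-u)*c*d) * (δ*(1-δ))
      + (-(e0^2*s^3)) * δ^2) =
      s*(c^3 * ((1-e0*u)*(e0-u)*d - s*((e0-u)^2+s^2)*c))*(1-δ)^2 +
      s*(-2*s*((e0-u)^2+s^2)*c^2 + s*(1-e0*u)^2 + (1-e0*u)*(e0-u)*c*d)*(δ*(1-δ)) +
      s*(-(e0^2*s^3))*δ^2 := by ring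
    rw [h7]
    linarith
  by_contra hcon
  push Not at hcon
  have := mul_nonneg hs.le hcon
  linarith

lemma key_case3 {u s c d e0 δ : ℝ} (hus : u^2 + s^2 = 1) (hcd : c^2 + d^2 = 1)
    (hs : 0 < s) (hA1 : 0 < u*c - s*d) (hA2 : 0 < s*c + u*d) (he0 : 0 < e0) (he1 : e0 < 1)
    (hδ0 : 0 ≤ δ) (hδ1 : δ < 1)
    (hS : -(s*(1-e0*u)*(e0-u)*(c^2-d^2)) +
      (2*(1-e0*u)^2 - 3*(1-e0*u)*s^2 - (e0-u)^2)*c*d ≤ 0)
    (hu : u ≤ 0) :
    s * (δ * (1 - e0*u)^2 - (c^2 + δ*d^2)^2 * ((e0-u)^2 + s^2)) +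
      (c^2 + δ*d^2) * ((1-δ)*c*d) * (1-e0*u) * (e0-u) < 0 := by
  rw [key_identity hus hcd]
  obtain ⟨v, hv⟩ : ∃ v, v = -u := ⟨_, rfl⟩
  have hv0 : 0 ≤ v := by linarith
  have huv : u = -v := by linarith
  subst huv
  have hs2 : s^2 = 1 - v^2 := by (have : (-v)^2 = v^2 := by ring); linarith
  have hv1 : v < 1 := by (have : v^2 < 1 := by linarith [pow_pos hs 2]); exact (sq_lt_one_iff₀ hv0).mp this
  have hμ : 0 < 1 + e0*v := by positivity
  have hE : 0 < e0 + v := by positivity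
  obtain ⟨a, ha⟩ : ∃ a, a = -v*c - s*d := ⟨_, rfl⟩
  have ha0 : 0 < a := by rw [ha]; linarith
  obtain ⟨b, hb⟩ : ∃ b, b = s*c - v*d := ⟨_, rfl⟩
  have hb0 : 0 < b := by rw [hb]; linarith
  have hd : d < 0 := by
    have : d = -(b*v + a*s) := by rw [ha, hb]; linear_combination (-d)*hus
    rw [this]
    have : 0 < b*v + a*s := by positivity
    linarith
  have hsd : s*d = -(a + v*c) := by rw [ha]; ring
  have hsb : s*b = c + v*a := by
    rw [hb, ha]; linear_combination c*hus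
  -- c > 0
  have hc : 0 < c := by
    by_contra hcon
    push Not at hcon
    rcases hv0.eq_or_lt with h0 | h0
    · rw [← h0] at hsb
      have : 0 < s*b := by positivity
      linarith
    · -- use hS times u
      have h1 : (-v) * (-(s*(1-e0*(-v))*(e0-(-v))*(c^2-d^2)) +
        (2*(1-e0*(-v))^2 - 3*(1-e0*(-v))*s^2 - (e0-(-v))^2)*c*d) =
        -((1+e0*v)*(e0+v)*a*b) - e0*s^4*c*d := by
        rw [ha, hb]; grind
      have h2 : 0 ≤ (-v) * (-(s*(1-e0*(-v))*(e0-(-v))*(c^2-d^2)) +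
        (2*(1-e0*(-v))^2 - 3*(1-e0*(-v))*s^2 - (e0-(-v))^2)*c*d) :=
        mul_nonneg_of_nonpos_of_nonpos (by linarith) hS
      have h3 : 0 < (1+e0*v)*(e0+v)*a*b := by positivity
      have h4 : 0 ≤ e0*s^4*(-c)*(-d) := by
        have : 0 ≤ -c := by linarith
        have : 0 ≤ -d := by linarith
        positivity
      have h5 : e0*s^4*(-c)*(-d) = e0*s^4*c*d := by ring
      linarith
  refine combine ?_ ?_ ?_ hδ0 hδ1
  · have h3 : (1-e0*(-v))*(e0-(-v))*d - s*((e0-(-v))^2+s^2)*c < 0 := by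
      have h4 : 0 < (1+e0*v)*(e0+v)*(-d) := by
        have : 0 < -d := by linarith
        positivity
      have h5 : 0 < s*((e0+v)^2+s^2)*c := by positivity
      have h6 : (1-e0*(-v))*(e0-(-v))*d - s*((e0-(-v))^2+s^2)*c =
        -((1+e0*v)*(e0+v)*(-d)) - s*((e0+v)^2+s^2)*c := by ring
      rw [h6]; linarith
    exact mul_neg_of_pos_of_neg (by positivity) h3
  · have h1 : s * (-2*s*((e0-(-v))^2+s^2)*c^2 + s*(1-e0*(-v))^2 + (1-e0*(-v))*(e0-(-v))*c*d) =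
        -(s^2*(1+2*e0^2+3*e0*v)*c^2) + (1+e0*v)*a*((1+e0*v)*(2*v*c+a) - (e0+v)*c) := by
      rw [ha]; grind
    have h2 : s * (-2*s*((e0-(-v))^2+s^2)*c^2 + s*(1-e0*(-v))^2 + (1-e0*(-v))*(e0-(-v))*c*d)
        < 0 := by
      rw [h1]
      have hR : 0 < s^2*(1+2*e0^2+3*e0*v)*c^2 := by positivity
      rcases le_or_gt ((1+e0*v)*(2*v*c+a) - (e0+v)*c) 0 with h3 | h3
      · have : (1+e0*v)*a*((1+e0*v)*(2*v*c+a) - (e0+v)*c) ≤ 0 :=
          mul_nonpos_of_nonneg_of_nonpos (by positivity) h3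
        linarith
      · rcases hv0.eq_or_lt with h0 | h0
        · -- v = 0
          exfalso
          rw [← h0] at h3 hS hs2 hsd hsb
          have hs1 : s = 1 := by (have h : s^2 = 1 := by simpa using hs2); exact (pow_eq_one_iff_of_nonneg hs.le two_ne_zero).mp h
          rw [hs1] at hS hsd hsb
          have h5 : d = -a := by linarith
          rw [h5] at hS
          have h6 : e0*c < a := by linarith
          have h7 : 0 < a * c := by positivity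
          have h8 : 0 ≤ e0*c^2 - e0*a^2 - (1+e0^2)*c*a := by (ring_nf at hS ⊢; linarith)
          (have h9 := mul_lt_mul_of_pos_right h6 hc; have h10 : 0 ≤ e0^2*(c*a)+e0*a^2 := by positivity); linarith
        · have h4 : (-v) * (-(s*(1-e0*(-v))*(e0-(-v))*(c^2-d^2)) +
            (2*(1-e0*(-v))^2 - 3*(1-e0*(-v))*s^2 - (e0-(-v))^2)*c*d) =
            -((1+e0*v)*(e0+v)*a*b) - e0*s^4*c*d := by
            rw [ha, hb]; grind
          have h5 : 0 ≤ (-v) * (-(s*(1-e0*(-v))*(e0-(-v))*(c^2-d^2)) +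
            (2*(1-e0*(-v))^2 - 3*(1-e0*(-v))*s^2 - (e0-(-v))^2)*c*d) :=
            mul_nonneg_of_nonpos_of_nonpos (by linarith) hS
          rw [h4] at h5
          -- multiply by s
          have h6 : (1+e0*v)*(e0+v)*a*(c+v*a) ≤ e0*s^4*c*(a+v*c) := by
            have h7 := mul_nonneg hs.le h5
            have h8 : s*(-((1+e0*v)*(e0+v)*a*b) - e0*s^4*c*d) =
              -((1+e0*v)*(e0+v)*a*(s*b)) - e0*s^4*c*(s*d) := by ring
            rw [h8, hsb, hsd] at h7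
            linarith
          have hs4 : s^4 = (1-v^2)^2 := by
            have : s^4 = (s^2)^2 := by ring
            rw [this, hs2]
          have hs4' : s^4 < 1 := by
            rw [hs4]; exact pow_lt_one₀ (by linarith [pow_pos hs 2]) (by linarith [pow_pos h0 2]) two_ne_zero
          have hs4p : 0 < s^4 := by positivity
          -- a < e0 s^4 c
          have h9 : a < e0*s^4*c := by
            by_contra hcon
            push Not at hcon
            have h10 : v + e0*s^4 < (1+e0*v)*(e0+v) := by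
              have : e0*s^4 < e0 := by linarith [mul_lt_mul_of_pos_left hs4' he0]
              have : 0 < e0*v*(e0+v) := by positivity
              linarith
            have h11 : e0*s^4*c*(a+v*c) < (1+e0*v)*(e0+v)*a*(c+v*a) := by
              have h12 : (v + e0*s^4)*(a*(c+v*a)) < (1+e0*v)*(e0+v)*(a*(c+v*a)) :=
                mul_lt_mul_of_pos_right h10 (by positivity)
              have h13 : e0*s^4*c*(a+v*c) ≤ (v+e0*s^4)*(a*(c+v*a)) := by
                have h14 : e0*s^4*c*(v*c) ≤ a*(v*c) :=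
                  mul_le_mul_of_nonneg_right hcon (by positivity)
                have h15 : 0 ≤ v*(v*a^2) := by positivity
                have h16 : 0 ≤ e0*s^4*(v*a^2) := by positivity
                linarith
              linarith
            linarith
          have hac : a < c := by
            have : e0*s^4*c < c := by
              have : e0*s^4 < 1 := by linarith [mul_lt_mul_of_pos_left hs4' he0]
              linarith [mul_lt_mul_of_pos_right this hc]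
            linarith
          have h10 : (1+e0*v)*a ≤ s^4*c := by
            have h11 : (1+e0*v)*(e0+v)*a*(c+v*a) ≤ (e0+v)*s^4*c*(c+v*a) := by
              have h12 : e0*s^4*c*(a+v*c) ≤ (e0+v)*s^4*c*(c+v*a) := by
                have h13 : a+v*c ≤ c+v*a := by linarith [mul_nonneg (sub_nonneg.mpr hv1.le) (sub_nonneg.mpr hac.le)]
                have h14 : e0*s^4*c*(a+v*c) ≤ e0*s^4*c*(c+v*a) :=
                  mul_le_mul_of_nonneg_left h13 (by positivity)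
                have h15 : 0 ≤ v*s^4*c*(c+v*a) := by positivity
                linarith
              linarith
            have h16 : 0 < (e0+v)*(c+v*a) := by positivity
            have h17 : (1+e0*v)*a*((e0+v)*(c+v*a)) ≤ s^4*c*((e0+v)*(c+v*a)) := by
              linarith
            exact le_of_mul_le_mul_right h17 h16
          have h11 : (1+e0*v)*(2*v*c+a) - (e0+v)*c < c*(v + e0*v^4 + e0^2*v*s^4) := by
            have h12 : (1+e0*v)*(2*v*c+a) - (e0+v)*c =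
              v*c + 2*e0*v^2*c - e0*c + (1+e0*v)*a := by ring
            have h13 : (1+e0*v)*a < (1+e0*v)*(e0*s^4*c) :=
              mul_lt_mul_of_pos_left h9 hμ
            have h14 : v*c + 2*e0*v^2*c - e0*c + (1+e0*v)*(e0*s^4*c) =
              c*(v + e0*v^4 + e0^2*v*s^4) := by
              rw [hs4]; ring
            rw [h12]; linarith
          have h12 : (1+e0*v)*a*((1+e0*v)*(2*v*c+a) - (e0+v)*c) ≤
              s^4*c*(c*(v + e0*v^4 + e0^2*v*s^4)) :=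
            mul_le_mul h10 h11.le h3.le (by positivity)
          have h13 : s^4*c*(c*(v + e0*v^4 + e0^2*v*s^4)) < s^2*(1+2*e0^2+3*e0*v)*c^2 := by
            have h14 : s^2*(v + e0*v^4 + e0^2*v*s^4) < 1+2*e0^2+3*e0*v := by
              have h15 : s^2 ≤ 1 := by rw [hs2]; linarith [sq_nonneg v]
              have h16 : 0 ≤ v + e0*v^4 + e0^2*v*s^4 := by positivity
              have h17 : s^2*(v + e0*v^4 + e0^2*v*s^4) ≤ v + e0*v^4 + e0^2*v*s^4 := by
                linarith [mul_le_mul_of_nonneg_right h15 h16]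
              have h18 : v^4 ≤ v := by
                have : v^3 ≤ 1 := pow_le_one₀ hv0 hv1.le
                linarith [mul_le_mul_of_nonneg_left this hv0]
              have h19 : e0*v^4 ≤ e0*v := mul_le_mul_of_nonneg_left h18 he0.le
              have h20 : e0^2*v*s^4 ≤ e0^2 := by
                have : v*s^4 ≤ 1 := by linarith [mul_lt_mul_of_pos_left hs4' h0]
                have h21 : e0^2*(v*s^4) ≤ e0^2*1 :=
                  mul_le_mul_of_nonneg_left this (by positivity)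
                linarith
              linarith [mul_pos he0 h0, sq_nonneg e0]
            have h22 : 0 < s^2*c^2 := by positivity
            have h23 := mul_lt_mul_of_pos_left h14 h22
            linarith
          linarith
    by_contra hcon
    push Not at hcon
    have := mul_nonneg hs.le hcon
    linarith
  · have : 0 < e0^2*s^3 := by positivity
    linarith

lemma key_all {u s c d e0 δ : ℝ} (hus : u^2 + s^2 = 1) (hcd : c^2 + d^2 = 1)
    (hs : 0 < s) (hA1 : 0 < u*c - s*d) (hA2 : 0 < s*c + u*d) (he0 : 0 < e0) (he1 : e0 < 1)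
    (hδ0 : 0 ≤ δ) (hδ1 : δ < 1)
    (hS : -(s*(1-e0*u)*(e0-u)*(c^2-d^2)) +
      (2*(1-e0*u)^2 - 3*(1-e0*u)*s^2 - (e0-u)^2)*c*d ≤ 0) :
    s * (δ * (1 - e0*u)^2 - (c^2 + δ*d^2)^2 * ((e0-u)^2 + s^2)) +
      (c^2 + δ*d^2) * ((1-δ)*c*d) * (1-e0*u) * (e0-u) < 0 := by
  rcases le_or_gt u 0 with hu | hu
  · exact key_case3 hus hcd hs hA1 hA2 he0 he1 hδ0 hδ1 hS hu
  · rcases le_or_gt 0 (e0 - u) with hE | hE
    · exact key_case1 hus hcd hs hA1 hA2 he0 he1 hδ0 hδ1 hS hu hE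
    · exact key_case2 hus hcd hs hA1 hA2 he0 he1 hδ0 hδ1 hS hu hE

end Pool.Agent.Helper19.Moid
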