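import Pool.Agent.Helper19.Moid.Planar2

namespace Pool.Agent.Helper19.Moid

section
variable {a1 a2 e : ℝ}

noncomputable def nn (a1 a2 e x : ℝ) : ℝ := (a1 - a2*x)/L x - a2*e
noncomputable def G (a1 a2 e x : ℝ) : ℝ := M e x * nn a1 a2 e x
noncomputable def G1 (a1 a2 e x : ℝ) : ℝ :=
  -a2*(1+e^2) + e*(a1 - a2*x*(3+2*x^2))/L x^3
noncomputable def G2 (a1 a2 e x : ℝ) : ℝ := -3*e*(a1*x+a2)/L x^5

lemma hasDerivAt_nn (x : ℝ) : HasDerivAt (nn a1 a2 e) (-(a1*x+a2)/L x^3) x := by
  have hl := L_sq x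
  have hl0 := L_ne x
  have h0 : HasDerivAt (fun x : ℝ => a1 - a2*x) (-a2) x := by
    have := (hasDerivAt_const x a1).sub ((hasDerivAt_id x).const_mul a2)
    exact this.congr_deriv (by ring)
  have h1 := (h0.div (hasDerivAt_L x) (L_ne x)).sub_const (a2*e)
  refine h1.congr_deriv ?_
  generalize L x = l at hl hl0
  field_simp
  grind

lemma nn_eq (x : ℝ) : nn a1 a2 e x = a1 * M e x - (a1*x+a2)*(x/L x + e) := by
  have hl := L_sq x
  have hl0 := L_ne x
  simp only [nn, M]
  generalize L x = l at hl hl0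
  field_simp
  grind

lemma hasDerivAt_G (x : ℝ) : HasDerivAt (G a1 a2 e) (G1 a1 a2 e x) x := by
  have hl := L_sq x
  have hl0 := L_ne x
  have h1 := (hasDerivAt_M (e := e) x).mul (hasDerivAt_nn (a1 := a1) (a2 := a2) (e := e) x)
  refine h1.congr_deriv ?_
  simp only [G1, nn, M]
  generalize L x = l at hl hl0
  field_simp
  grind

lemma hasDerivAt_G1 (x : ℝ) : HasDerivAt (G1 a1 a2 e) (G2 a1 a2 e x) x := by
  have hl := L_sq x
  have hl0 := L_ne x
  have h0 : HasDerivAt (fun x : ℝ => a1 - a2*x*(3+2*x^2)) (-a2*(3+6*x^2)) x := by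
    have := (hasDerivAt_const x a1).sub (((hasDerivAt_id x).const_mul a2).mul
      ((((hasDerivAt_id x).pow 2).const_mul 2).const_add 3))
    refine this.congr_deriv ?_
    simp; ring
  have h1 := ((h0.const_mul e).div ((hasDerivAt_L x).pow 3)
    (pow_ne_zero 3 (L_ne x))).const_add (-a2*(1+e^2))
  refine h1.congr_deriv ?_
  simp only [G2, Pi.pow_apply]
  generalize L x = l at hl hl0
  push_cast
  field_simp
  grind

lemma zeros_nn_le (he : |e| < 1) (h2 : a2 ≠ 0) : {x | nn a1 a2 e x = 0}.encard ≤ 1 := by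
  have hk : ∀ x, HasDerivAt (fun x => a1 - a2*x - a2*e*L x) (-a2 * (M e x / L x)) x := by
    intro x
    have hl0 := L_ne x
    have := ((hasDerivAt_const x a1).sub ((hasDerivAt_id x).const_mul a2)).sub
      ((hasDerivAt_L x).const_mul (a2*e))
    refine this.congr_deriv ?_
    simp only [M]
    field_simp
    ring
  have h1 := zeros_le_deriv hk
  have h3 : {x | -a2 * (M e x / L x) = 0} = ∅ := by
    ext x
    simp only [Set.mem_ofPred_eq, Set.mem_empty_iff_false, iff_false]
    exact mul_ne_zero (neg_ne_zero.mpr h2) (div_ne_zero (M_pos he x).ne' (L_ne x))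
  have h4 : {x | nn a1 a2 e x = 0} = {x | a1 - a2*x - a2*e*L x = 0} := by
    ext x
    simp only [Set.mem_ofPred_eq, nn]
    have := L_ne x
    constructor
    · intro h; field_simp at h; linarith
    · intro h; field_simp; linarith
  rw [h4]
  rw [h3] at h1
  simpa using h1

lemma zeros_G (he : |e| < 1) : {x | G a1 a2 e x = 0} = {x | nn a1 a2 e x = 0} := by
  ext x
  simp [G, (M_pos he x).ne']

lemma cubic_bound (x : ℝ) : |x| * (3+2*x^2) ≤ 2 * L x^3 := by
  have hl := L_sq x
  have hl0 := L_pos x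
  have h1 : (|x| * (3+2*x^2))^2 ≤ (2*L x^3)^2 := by
    have h2 : (2*L x^3)^2 = 4*(1+x^2)^3 := by rw [← hl]; ring
    have h3 : (|x| * (3+2*x^2))^2 = x^2*(3+2*x^2)^2 := by rw [mul_pow, sq_abs]
    rw [h2, h3]
    nlinarith [sq_nonneg x]
  exact (abs_le_of_sq_le_sq' h1 (by positivity)).2

lemma G1_ne (he : |e| < 1) (h2 : a2 ≠ 0) (hs : e*(a1*a2) ≤ 0) (x : ℝ) : G1 a1 a2 e x ≠ 0 := by
  have hl := L_sq x
  have hl0 := L_pos x
  have hb := cubic_bound x
  have h3 : a2 * (G1 a1 a2 e x) * L x^3 < 0 := by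
    have h4 : a2 * (G1 a1 a2 e x) * L x^3 =
        -(a2^2*((1+e^2)*L x^3 + e*x*(3+2*x^2))) + e*(a1*a2) := by
      simp only [G1]
      have := hl0.ne'
      field_simp
      ring
    rw [h4]
    have h5 : -(|e| * (|x| * (3+2*x^2))) ≤ e*x*(3+2*x^2) := by
      have h6 : -(|e| * |x|) ≤ e*x := by
        rw [← abs_mul]; exact neg_abs_le _
      have h7 : 0 ≤ 3+2*x^2 := by positivity
      have := mul_le_mul_of_nonneg_right h6 h7
      linarith
    have h6 : |e| * (|x| * (3+2*x^2)) ≤ |e| * (2*L x^3) :=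
      mul_le_mul_of_nonneg_left hb (abs_nonneg e)
    have h7 : 0 < (1-|e|)^2 * L x^3 := by
      have : 0 < 1 - |e| := by linarith
      positivity
    have h8 : (1-|e|)^2 * L x^3 = (1+e^2)*L x^3 - |e| * (2*L x^3) := by
      have : |e|^2 = e^2 := sq_abs e
      linear_combination (L x^3) * this
    have h9 : 0 < (1+e^2)*L x^3 + e*x*(3+2*x^2) := by linarith
    have h10 : 0 < a2^2*((1+e^2)*L x^3 + e*x*(3+2*x^2)) := by positivity
    linarith
  intro h
  rw [h] at h3
  simp at h3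

lemma count_G_le (he : |e| < 1) {h : ℝ} (hh : 0 < h) {m n : ℕ∞}
    (h1 : {x | G1 a1 a2 e x = 0}.encard ≤ m) (h2 : {x | nn a1 a2 e x = 0}.encard ≤ n) :
    {x | |G a1 a2 e x| = h}.encard ≤ m + n + 1 := by
  have := level_le (fun x => hasDerivAt_G (a1 := a1) (a2 := a2) (e := e) x) hh
  rw [zeros_G he] at this
  refine this.trans ?_
  gcongr

lemma count_G_four (he : |e| < 1) (he0 : e ≠ 0) (h1 : a1 ≠ 0) (h2 : a2 ≠ 0) {h : ℝ}
    (hh : 0 < h) : {x | |G a1 a2 e x| = h}.encard ≤ 4 := by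
  have h3 : {x | G2 a1 a2 e x = 0}.encard ≤ 1 := by
    rw [Set.encard_le_one_iff]
    intro x y hx hy
    have key : ∀ x, G2 a1 a2 e x = 0 → a1*x+a2 = 0 := by
      intro x hx
      simp only [G2] at hx
      have := L_ne x
      rw [div_eq_zero_iff] at hx
      rcases hx with hx | hx
      · rcases mul_eq_zero.mp hx with hx | hx
        · exact absurd hx (by positivity)
        · exact hx
      · exact absurd hx (by positivity)
    have hx' := key x hx
    have hy' := key y hy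
    have : a1*x = a1*y := by linarith
    exact mul_left_cancel₀ h1 this
  have h4 := zeros_le_deriv (fun x => hasDerivAt_G1 (a1 := a1) (a2 := a2) (e := e) x)
  have h5 : {x | G1 a1 a2 e x = 0}.encard ≤ 2 := by
    calc _ ≤ _ := h4
      _ ≤ 1 + 1 := by gcongr
      _ = 2 := by norm_num
  exact (count_G_le he hh h5 (zeros_nn_le he h2)).trans (by norm_num)

lemma count_G_two (he : |e| < 1) (h2 : a2 ≠ 0) (hs : e*(a1*a2) ≤ 0) {h : ℝ}
    (hh : 0 < h) : {x | |G a1 a2 e x| = h}.encard ≤ 2 := by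
  have h3 : {x | G1 a1 a2 e x = 0}.encard ≤ 0 := by
    have : {x | G1 a1 a2 e x = 0} = ∅ := by
      ext x
      simp only [Set.mem_ofPred_eq, Set.mem_empty_iff_false, iff_false]
      exact G1_ne he h2 hs x
    rw [this]; simp
  exact (count_G_le he hh h3 (zeros_nn_le he h2)).trans (by norm_num)

lemma count_G_one (he : |e| < 1) (he0 : e ≠ 0) (h1 : a1 ≠ 0) {h : ℝ}
    (hh : 0 < h) : {x | |G a1 0 e x| = h}.encard ≤ 1 := by
  have h3 : {x | G1 a1 0 e x = 0}.encard ≤ 0 := by
    have : {x | G1 a1 0 e x = 0} = ∅ := by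
      ext x
      simp only [Set.mem_ofPred_eq, Set.mem_empty_iff_false, iff_false]
      have hs : G1 a1 0 e x = e*a1/L x^3 := by simp [G1]
      rw [hs]
      have := L_ne x
      positivity
    rw [this]; simp
  have h4 : {x | nn a1 0 e x = 0}.encard ≤ 0 := by
    have : {x | nn a1 0 e x = 0} = ∅ := by
      ext x
      simp only [Set.mem_ofPred_eq, Set.mem_empty_iff_false, iff_false]
      have hs : nn a1 0 e x = a1/L x := by simp [nn]
      rw [hs]
      have := L_ne x
      positivity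
    rw [this]; simp
  exact (count_G_le he hh h3 h4).trans (by norm_num)

end

end Pool.Agent.Helper19.Moid
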