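import Pool.Agent.Helper19.Moid.Good

namespace Pool.Agent.Helper19.Moid

lemma L_eq_of_sq {x y : ℝ} (hy : 0 < y) (h : y^2 = 1 + x^2) : L x = y := by
  have h1 := L_sq x
  have h2 := L_pos x
  nlinarith [sq_nonneg (L x - y), mul_pos h2 hy]

/-- The algebraic solution set: `(c,s)` is the direction of the point of the circle and
`(C,S)` the eccentric anomaly of the point of the ellipse. -/
def Sol (a b cc ρ b11 b12 b21 b22 : ℝ) : Set (ℝ × ℝ × ℝ × ℝ) :=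
  {z | z.1^2 + z.2.1^2 = 1 ∧ z.2.2.1^2 + z.2.2.2^2 = 1 ∧
    z.1*(b21*(a*z.2.2.1-cc)+b22*(b*z.2.2.2)) = z.2.1*(b11*(a*z.2.2.1-cc)+b12*(b*z.2.2.2)) ∧
    cc*z.2.2.2*(a-cc*z.2.2.1) = ρ*(z.1*(-a*z.2.2.2*b11+b*z.2.2.1*b12)
      + z.2.1*(-a*z.2.2.2*b21+b*z.2.2.1*b22))}

section
variable {a b cc ρ b11 b12 b21 b22 c s C S : ℝ}

lemma r_pos (ha : 0 < a) (hb : 0 < b) (hcc : 0 < cc) (habc : cc^2 + b^2 = a^2)
    (hCS : C^2 + S^2 = 1) : 0 < a - cc * C := by
  have h1 : cc < a := by nlinarith [pow_pos hb 2]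
  have h2 : C ≤ 1 := by nlinarith [sq_nonneg S]
  nlinarith

lemma L_val (ha : 0 < a) (hb : 0 < b) (hcc : 0 < cc) (habc : cc^2 + b^2 = a^2)
    (hCS : C^2 + S^2 = 1) (hS : 0 < S) :
    L ((a*C-cc)/(b*S)) = (a - cc*C)/(b*S) := by
  have hr := r_pos ha hb hcc habc hCS
  refine L_eq_of_sq (by positivity) ?_
  field_simp
  have hS2 : S^2 = 1 - C^2 := by linarith
  have hb2 : b^2 = a^2 - cc^2 := by linarith
  rw [hS2, hb2]; ring

lemma M_val (ha : 0 < a) (hb : 0 < b) (hcc : 0 < cc) (habc : cc^2 + b^2 = a^2)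
    (hCS : C^2 + S^2 = 1) (hS : 0 < S) :
    M (cc/a) ((a*C-cc)/(b*S)) = b/(a*S) := by
  simp only [M]
  rw [L_val ha hb hcc habc hCS hS]
  field_simp
  linarith

lemma M'_val (ha : 0 < a) (hb : 0 < b) (hcc : 0 < cc) (habc : cc^2 + b^2 = a^2)
    (hCS : C^2 + S^2 = 1) (hS : 0 < S) :
    ((a*C-cc)/(b*S)) / L ((a*C-cc)/(b*S)) + cc/a = b^2*C/(a*(a-cc*C)) := by
  have hr := r_pos ha hb hcc habc hCS
  rw [L_val ha hb hcc habc hCS hS, div_div_div_cancel_right₀ (by positivity)]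
  have hr' := hr.ne'
  rw [div_add_div _ _ hr' ha.ne', div_eq_div_iff (by positivity) (by positivity)]
  linear_combination (-(C*((a-cc*C)*a)))*habc

/-- `(C,S)` is determined by `x`. -/
lemma CS_inj {C' S' : ℝ} (ha : 0 < a) (hb : 0 < b) (hcc : 0 < cc) (habc : cc^2 + b^2 = a^2)
    (hCS : C^2 + S^2 = 1) (hS : 0 < S) (hCS' : C'^2 + S'^2 = 1) (hS' : 0 < S')
    (hx : (a*C-cc)/(b*S) = (a*C'-cc)/(b*S')) : C = C' ∧ S = S' := by
  have h1 := M_val ha hb hcc habc hCS hS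
  have h2 := M_val ha hb hcc habc hCS' hS'
  rw [← hx, h1] at h2
  have h3 : S = S' := by
    have : b*(a*S') = b*(a*S) := by
      rw [div_eq_div_iff (by positivity) (by positivity)] at h2
      exact h2
    have h4 := mul_left_cancel₀ hb.ne' this
    exact (mul_left_cancel₀ ha.ne' h4).symm
  subst h3
  refine ⟨?_, rfl⟩
  rw [div_left_inj' (by positivity)] at hx
  have : a*C = a*C' := by linarith
  exact mul_left_cancel₀ ha.ne' this

lemma key_rel (hcs : c^2 + s^2 = 1)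
    {x1 x2 t1 t2 : ℝ} (h1 : c*x2 = s*x1) :
    (c*t1+s*t2)^2*(x1^2+x2^2) = (x1*t1+x2*t2)^2 := by
  have e1 : (c*t1+s*t2)*x1 = c*(x1*t1+x2*t2) := by linear_combination (-t2)*h1
  have e2 : (c*t1+s*t2)*x2 = s*(x1*t1+x2*t2) := by linear_combination t1*h1
  calc (c*t1+s*t2)^2*(x1^2+x2^2) = ((c*t1+s*t2)*x1)^2 + ((c*t1+s*t2)*x2)^2 := by ring
    _ = (c^2+s^2)*(x1*t1+x2*t2)^2 := by rw [e1, e2]; ring
    _ = _ := by rw [hcs, one_mul]

/-- Two unit vectors parallel to the same nonzero vector agree up to sign. -/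
lemma unit_par {c' s' x1 x2 : ℝ} (hcs : c^2 + s^2 = 1) (hcs' : c'^2 + s'^2 = 1)
    (h1 : c*x2 = s*x1) (h2 : c'*x2 = s'*x1) (hx : 0 < x1^2 + x2^2) :
    (c = c' ∧ s = s') ∨ (c = -c' ∧ s = -s') := by
  have h3 : c*s' = s*c' := by
    have e1 : (c*s' - s*c')*x1 = 0 := by linear_combination c'*h1 - c*h2
    have e2 : (c*s' - s*c')*x2 = 0 := by linear_combination s'*h1 - s*h2
    have e3 : (c*s' - s*c')^2*(x1^2+x2^2) = 0 := by
      have : (c*s' - s*c')^2*(x1^2+x2^2) = ((c*s' - s*c')*x1)^2 + ((c*s' - s*c')*x2)^2 := by ring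
      rw [this, e1, e2]; ring
    have e4 : (c*s' - s*c')^2 = 0 := by
      rcases mul_eq_zero.mp e3 with h | h
      · exact h
      · exact absurd h hx.ne'
    have := pow_eq_zero_iff (two_ne_zero) |>.mp e4
    linarith
  have h4 : (c*c'+s*s')^2 = 1 := by
    have : (c*c'+s*s')^2 = (c^2+s^2)*(c'^2+s'^2) - (c*s'-s*c')^2 := by ring
    rw [this, hcs, hcs', h3]; ring
  have h5 : c*c'+s*s' = 1 ∨ c*c'+s*s' = -1 := by
    have h6 : (c*c'+s*s' - 1)*(c*c'+s*s' + 1) = 0 := by linear_combination h4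
    rcases mul_eq_zero.mp h6 with h | h
    · left; linarith
    · right; linarith
  rcases h5 with h5 | h5
  · left
    have : (c-c')^2 + (s-s')^2 = 0 := by nlinarith
    constructor <;> nlinarith [sq_nonneg (c-c'), sq_nonneg (s-s')]
  · right
    have : (c+c')^2 + (s+s')^2 = 0 := by nlinarith
    constructor <;> nlinarith [sq_nonneg (c+c'), sq_nonneg (s+s')]

end

end Pool.Agent.Helper19.Moid
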