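import Pool.Agent.Helper19.Moid.Planar

namespace Pool.Agent.Helper19.Moid

section
variable {a b cc ρ b11 b12 b21 b22 c s C S : ℝ}

lemma Q_val (hb : 0 < b) (hS : 0 < S) :
    Q (b11^2+b21^2) (b11*b12+b21*b22) (b12^2+b22^2) ((a*C-cc)/(b*S)) =
      ((b11*(a*C-cc)+b12*(b*S))^2 + (b21*(a*C-cc)+b22*(b*S))^2)/(b*S)^2 := by
  simp only [Q]
  field_simp
  ring

lemma N_val (ha : 0 < a) (hb : 0 < b) (hcc : 0 < cc) (habc : cc^2 + b^2 = a^2)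
    (hCS : C^2 + S^2 = 1) (hS : 0 < S) :
    N (b11^2+b21^2) (b11*b12+b21*b22) (b12^2+b22^2) (cc/a) ((a*C-cc)/(b*S)) =
      -((b11*(a*C-cc)+b12*(b*S))*(-a*S*b11+b*C*b12) +
        (b21*(a*C-cc)+b22*(b*S))*(-a*S*b21+b*C*b22))/(a*S*(a-cc*C)) := by
  have hr := r_pos ha hb hcc habc hCS
  have hr' := hr.ne'
  rw [N_eq, M_val ha hb hcc habc hCS hS, M'_val ha hb hcc habc hCS hS, Q_val hb hS]
  obtain ⟨x1, hx1⟩ : ∃ x1, x1 = b11*(a*C-cc)+b12*(b*S) := ⟨_, rfl⟩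
  obtain ⟨x2, hx2⟩ : ∃ x2, x2 = b21*(a*C-cc)+b22*(b*S) := ⟨_, rfl⟩
  have hA : (b11^2+b21^2)*((a*C-cc)/(b*S)) + (b11*b12+b21*b22) = (b11*x1+b21*x2)/(b*S) := by
    rw [hx1, hx2]; field_simp; ring
  rw [hA, ← hx1, ← hx2]
  have hL : (b11*x1+b21*x2)/(b*S)*(b/(a*S)) - (x1^2+x2^2)/(b*S)^2*(b^2*C/(a*(a-cc*C))) =
      ((b11*x1+b21*x2)*(a-cc*C) - (x1^2+x2^2)*C)/(a*S^2*(a-cc*C)) := by
    generalize a-cc*C = r at hr hr'
    field_simp
  rw [hL, div_eq_div_iff (by positivity) (by positivity)]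
  have hW : x1^2+x2^2 = (a*C-cc)*(b11*x1+b21*x2) + (b*S)*(b12*x1+b22*x2) := by
    rw [hx1, hx2]; ring
  rw [hW]
  linear_combination (-(b11*x1+b21*x2)*a*(a*S*(a-cc*C)))*hCS

lemma H_sq (ha : 0 < a) (hb : 0 < b) (hcc : 0 < cc) (hρ : 0 < ρ) (habc : cc^2 + b^2 = a^2)
    (hz : (c, s, C, S) ∈ Sol a b cc ρ b11 b12 b21 b22) (hS : 0 < S)
    (hQ : 0 < Q (b11^2+b21^2) (b11*b12+b21*b22) (b12^2+b22^2) ((a*C-cc)/(b*S))) :
    (H (b11^2+b21^2) (b11*b12+b21*b22) (b12^2+b22^2) (cc/a) ((a*C-cc)/(b*S)))^2 =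
      (cc*b^2/(a^2*ρ))^2 := by
  obtain ⟨hcs, hCS, h1, h2⟩ := hz
  simp only at hcs hCS h1 h2
  have hr := r_pos ha hb hcc habc hCS
  have hr' := hr.ne'
  have hN := N_val (b11 := b11) (b12 := b12) (b21 := b21) (b22 := b22) ha hb hcc habc hCS hS
  have hM := M_val ha hb hcc habc hCS hS
  have hQv := Q_val (a := a) (cc := cc) (C := C) (b11 := b11) (b12 := b12) (b21 := b21) (b22 := b22) hb hS
  have hH : (H (b11^2+b21^2) (b11*b12+b21*b22) (b12^2+b22^2) (cc/a) ((a*C-cc)/(b*S)))^2 *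
      Q (b11^2+b21^2) (b11*b12+b21*b22) (b12^2+b22^2) ((a*C-cc)/(b*S)) =
      (M (cc/a) ((a*C-cc)/(b*S)) *
        N (b11^2+b21^2) (b11*b12+b21*b22) (b12^2+b22^2) (cc/a) ((a*C-cc)/(b*S)))^2 := by
    simp only [H]
    have hs := Real.sq_sqrt hQ.le
    have hs0 := (Real.sqrt_pos.mpr hQ).ne'
    rw [div_pow, hs]
    field_simp
  have hkey := key_rel (t1 := -a*S*b11+b*C*b12) (t2 := -a*S*b21+b*C*b22) hcs h1
  refine mul_right_cancel₀ hQ.ne' ?_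
  rw [hH, hM, hN, hQv]
  have h3 : (c*(-a*S*b11+b*C*b12) + s*(-a*S*b21+b*C*b22)) = cc*S*(a-cc*C)/ρ := by
    rw [h2]; field_simp
  rw [h3] at hkey
  generalize (b11*(a*C-cc)+b12*(b*S)) = x1 at *
  generalize (b21*(a*C-cc)+b22*(b*S)) = x2 at *
  generalize (-a*S*b11+b*C*b12) = t1 at *
  generalize (-a*S*b21+b*C*b22) = t2 at *
  have e : (b/(a*S) * (-(x1*t1 + x2*t2)/(a*S*(a-cc*C))))^2 =
    b^2*(x1*t1+x2*t2)^2/((a*S)^4*(a-cc*C)^2) := by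
    field_simp
  rw [e, ← hkey]
  field_simp

lemma abs_H_eq (ha : 0 < a) (hb : 0 < b) (hcc : 0 < cc) (hρ : 0 < ρ) (habc : cc^2 + b^2 = a^2)
    (hz : (c, s, C, S) ∈ Sol a b cc ρ b11 b12 b21 b22) (hS : 0 < S)
    (hQ : 0 < Q (b11^2+b21^2) (b11*b12+b21*b22) (b12^2+b22^2) ((a*C-cc)/(b*S))) :
    |H (b11^2+b21^2) (b11*b12+b21*b22) (b12^2+b22^2) (cc/a) ((a*C-cc)/(b*S))| =
      cc*b^2/(a^2*ρ) := by
  have h := H_sq ha hb hcc hρ habc hz hS hQ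
  have h0 : 0 < cc*b^2/(a^2*ρ) := by positivity
  rw [← abs_of_pos h0]
  exact (sq_eq_sq_iff_abs_eq_abs _ _).mp h

/-- injectivity of `x` on the part `S > 0` (non-degenerate projection). -/
lemma sol_inj {c' s' C' S' : ℝ} (ha : 0 < a) (hb : 0 < b) (hcc : 0 < cc) (hρ : 0 < ρ)
    (habc : cc^2 + b^2 = a^2)
    (hz : (c, s, C, S) ∈ Sol a b cc ρ b11 b12 b21 b22) (hS : 0 < S)
    (hz' : (c', s', C', S') ∈ Sol a b cc ρ b11 b12 b21 b22) (hS' : 0 < S')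
    (hx : (a*C-cc)/(b*S) = (a*C'-cc)/(b*S'))
    (hW : 0 < (b11*(a*C-cc)+b12*(b*S))^2 + (b21*(a*C-cc)+b22*(b*S))^2) :
    (c, s, C, S) = (c', s', C', S') := by
  obtain ⟨hcs, hCS, h1, h2⟩ := hz
  obtain ⟨hcs', hCS', h1', h2'⟩ := hz'
  simp only at hcs hCS h1 h2 hcs' hCS' h1' h2'
  obtain ⟨rfl, rfl⟩ := CS_inj ha hb hcc habc hCS hS hCS' hS' hx
  have hr := r_pos ha hb hcc habc hCS
  rcases unit_par hcs hcs' h1 h1' hW with ⟨h3, h4⟩ | ⟨h3, h4⟩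
  · rw [h3, h4]
  · exfalso
    have h5 : 0 < cc*S*(a-cc*C) := by positivity
    rw [h3, h4] at h2
    have : cc*S*(a-cc*C) = -(cc*S*(a-cc*C)) := by
      nth_rewrite 1 [h2]; rw [h2']; ring
    linarith

end

/-- reflection symmetry of `H`. -/
lemma H_reflect (α β γ e x : ℝ) : H α (-β) γ (-e) (-x) = -H α β γ e x := by
  have hL : L (-x) = L x := by simp [L]
  have hQ : Q α (-β) γ (-x) = Q α β γ x := by simp only [Q]; ring
  have hM : M (-e) (-x) = M e x := by simp only [M, hL]; ring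
  have hN : N α (-β) γ (-e) (-x) = -N α β γ e x := by simp only [N, q, hL]; ring
  simp only [H, hQ, hM, hN]; ring

lemma encard_reflect (α β γ e h : ℝ) :
    {x | |H α β γ e x| = h}.encard = {x | |H α (-β) γ (-e) x| = h}.encard := by
  have h1 : {x | |H α (-β) γ (-e) x| = h} = (fun x => -x) '' {x | |H α β γ e x| = h} := by
    ext x
    simp only [Set.mem_ofPred_eq, Set.mem_image]
    constructor
    · intro hx
      refine ⟨-x, ?_, neg_neg x⟩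
      have h2 := H_reflect α β γ e (-x)
      rw [neg_neg] at h2
      rw [h2, abs_neg] at hx
      exact hx
    · rintro ⟨y, hy, rfl⟩
      rw [H_reflect, abs_neg]; exact hy
  rw [h1, neg_injective.encard_image]

end Pool.Agent.Helper19.Moid
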