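import Pool.Agent.Helper19.Moid.Orth

namespace Pool.Agent.Helper19.Moid

section
variable {a b cc ρ b11 b12 b21 b22 w1 w2 : ℝ}

lemma det_sq (hB1 : b11^2+b21^2 = 1-w1^2) (hB2 : b12^2+b22^2 = 1-w2^2)
    (hB3 : b11*b12+b21*b22 = -(w1*w2)) : 1 - w1^2 - w2^2 = (b11*b22-b12*b21)^2 := by
  have : (b11*b22-b12*b21)^2 = (b11^2+b21^2)*(b12^2+b22^2) - (b11*b12+b21*b22)^2 := by ring
  rw [this, hB1, hB2, hB3]; ring

lemma e_bounds (ha : 0 < a) (hb : 0 < b) (hcc : 0 < cc) (habc : cc^2 + b^2 = a^2) :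
    0 < cc/a ∧ cc/a < 1 := by
  have h1 : cc < a := by nlinarith [pow_pos hb 2]
  exact ⟨by positivity, (div_lt_one ha).mpr h1⟩

lemma Splus_nondeg (ha : 0 < a) (hb : 0 < b) (hcc : 0 < cc) (hρ : 0 < ρ)
    (habc : cc^2 + b^2 = a^2)
    (hQ : ∀ x, 0 < Q (b11^2+b21^2) (b11*b12+b21*b22) (b12^2+b22^2) x) :
    {z ∈ Sol a b cc ρ b11 b12 b21 b22 | 0 < z.2.2.2}.encard ≤
      {x | |H (b11^2+b21^2) (b11*b12+b21*b22) (b12^2+b22^2) (cc/a) x| = cc*b^2/(a^2*ρ)}.encard := by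
  refine Set.encard_le_encard_of_injOn (f := fun z => (a*z.2.2.1-cc)/(b*z.2.2.2)) ?_ ?_
  · rintro ⟨c, s, C, S⟩ ⟨hz, hS⟩
    exact abs_H_eq ha hb hcc hρ habc hz hS (hQ _)
  · rintro ⟨c, s, C, S⟩ ⟨hz, hS⟩ ⟨c', s', C', S'⟩ ⟨hz', hS'⟩ hx
    refine sol_inj ha hb hcc hρ habc hz hS hz' hS' hx ?_
    have h1 := hQ ((a*C-cc)/(b*S))
    simp only at hS
    rw [Q_val hb hS] at h1
    have h2 : 0 < (b*S)^2 := by positivity
    exact (div_pos_iff_of_pos_right h2).mp h1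

lemma Q_pos_of (hB1 : b11^2+b21^2 = 1-w1^2) (hB2 : b12^2+b22^2 = 1-w2^2)
    (hB3 : b11*b12+b21*b22 = -(w1*w2)) (hw : w1^2+w2^2 < 1) (x : ℝ) :
    0 < Q (b11^2+b21^2) (b11*b12+b21*b22) (b12^2+b22^2) x := by
  rw [hB1, hB2, hB3]
  have h1 : Q (1-w1^2) (-(w1*w2)) (1-w2^2) x =
      (1-w1^2-w2^2)*(1+x^2) + (w2*x-w1)^2 := by
    simp only [Q]; ring
  rw [h1]
  have : 0 < 1-w1^2-w2^2 := by linarith
  positivity

/-- degenerate (orthogonal) case -/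
lemma Splus_orth {a1 a2 n1 n2 : ℝ} (ha : 0 < a) (hb : 0 < b) (hcc : 0 < cc) (hρ : 0 < ρ)
    (habc : cc^2 + b^2 = a^2) (haa : a1^2+a2^2 = 1) (hn : n1^2+n2^2 = 1) :
    {z ∈ Sol a b cc ρ (a1*n1) (a2*n1) (a1*n2) (a2*n2) | 0 < z.2.2.2 ∧
      a1*(a*z.2.2.1-cc)+a2*(b*z.2.2.2) ≠ 0}.encard ≤
      {x | |G a1 a2 (cc/a) x| = cc*b^2/(a^2*ρ)}.encard := by
  refine Set.encard_le_encard_of_injOn (f := fun z => (a*z.2.2.1-cc)/(b*z.2.2.2)) ?_ ?_
  · rintro ⟨c, s, C, S⟩ ⟨hz, hS, hZ⟩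
    obtain ⟨hcs, hCS, h1, h2⟩ := hz
    simp only at hcs hCS h1 h2 hS hZ
    have hr := r_pos ha hb hcc habc hCS
    have h3 : c*n2 = s*n1 := by
      have : (c*n2 - s*n1)*(a1*(a*C-cc)+a2*(b*S)) = 0 := by linear_combination h1
      rcases mul_eq_zero.mp this with h | h
      · linarith
      · exact absurd h hZ
    have h4 : (c*n1+s*n2)^2 = 1 := by
      have : (c*n1+s*n2)^2 = (c^2+s^2)*(n1^2+n2^2) - (c*n2-s*n1)^2 := by ring
      rw [this, hcs, hn, h3]; ring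
    have h5 : cc*S*(a-cc*C) = ρ*((c*n1+s*n2)*(-a*S*a1+b*C*a2)) := by
      rw [h2]; ring
    have h6 : (cc*S*(a-cc*C))^2 = ρ^2*(-a*S*a1+b*C*a2)^2 := by
      rw [h5]
      have : (ρ*((c*n1+s*n2)*(-a*S*a1+b*C*a2)))^2 =
        ρ^2*((c*n1+s*n2)^2)*(-a*S*a1+b*C*a2)^2 := by ring
      rw [this, h4]; ring
    have hG : G a1 a2 (cc/a) ((a*C-cc)/(b*S)) = -(b^2*(-a*S*a1+b*C*a2))/(a^2*S*(a-cc*C)) := by
      simp only [G]
      rw [nn_eq, M_val ha hb hcc habc hCS hS, M'_val ha hb hcc habc hCS hS]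
      generalize hrr : a-cc*C = r at hr
      have hr' := hr.ne'
      have e1 : a1*(b/(a*S)) - (a1*((a*C-cc)/(b*S))+a2)*(b^2*C/(a*r)) =
        (a1*b*r - (a1*(a*C-cc)+a2*(b*S))*(b*C))/(a*S*r) := by
        field_simp
      rw [e1]
      have e2 : a1*b*r - (a1*(a*C-cc)+a2*(b*S))*(b*C) = -(b*S*(-a*S*a1+b*C*a2)) := by
        rw [← hrr]
        linear_combination (a1*b*a)*(-hCS)
      rw [e2]
      field_simp
    have h0 : 0 < cc*b^2/(a^2*ρ) := by positivity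
    show |G a1 a2 (cc/a) ((a*C-cc)/(b*S))| = cc*b^2/(a^2*ρ)
    rw [← abs_of_pos h0]
    refine (sq_eq_sq_iff_abs_eq_abs _ _).mp ?_
    rw [hG]
    have e3 : (-(b^2*(-a*S*a1+b*C*a2))/(a^2*S*(a-cc*C)))^2 =
      b^4*(-a*S*a1+b*C*a2)^2/(a^2*S*(a-cc*C))^2 := by
      rw [div_pow]; congr 1; ring
    have e4 : (-a*S*a1+b*C*a2)^2 = (cc*S*(a-cc*C))^2/ρ^2 := by
      rw [h6]; field_simp
    rw [e3, e4]
    have hr' := hr.ne'
    generalize a-cc*C = r at hr'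
    field_simp
  · rintro ⟨c, s, C, S⟩ ⟨hz, hS, hZ⟩ ⟨c', s', C', S'⟩ ⟨hz', hS', hZ'⟩ hx
    refine sol_inj ha hb hcc hρ habc hz hS hz' hS' hx ?_
    simp only at hZ
    have : (a1*n1*(a*C-cc)+a2*n1*(b*S))^2 + (a1*n2*(a*C-cc)+a2*n2*(b*S))^2 =
      (n1^2+n2^2)*(a1*(a*C-cc)+a2*(b*S))^2 := by ring
    rw [this, hn]
    positivity

lemma encard_pair_le' (u v : ℝ) : ({u, v} : Set ℝ).encard ≤ 2 := by
  refine (Set.encard_insert_le _ _).trans ?_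
  rw [Set.encard_singleton]; norm_num

lemma Splus_orth_zero {a1 a2 n1 n2 : ℝ} (ha : 0 < a) (hb : 0 < b) (hcc : 0 < cc) (hρ : 0 < ρ)
    (habc : cc^2 + b^2 = a^2) (haa : a1^2+a2^2 = 1) (hn : n1^2+n2^2 = 1) :
    {z ∈ Sol a b cc ρ (a1*n1) (a2*n1) (a1*n2) (a2*n2) | 0 < z.2.2.2 ∧
      a1*(a*z.2.2.1-cc)+a2*(b*z.2.2.2) = 0}.encard ≤ 2 := by
  rcases Set.eq_empty_or_nonempty {z ∈ Sol a b cc ρ (a1*n1) (a2*n1) (a1*n2) (a2*n2) |
    0 < z.2.2.2 ∧ a1*(a*z.2.2.1-cc)+a2*(b*z.2.2.2) = 0} with h | h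
  · rw [h]; simp
  obtain ⟨⟨c0, s0, C0, S0⟩, hz0, hS0, hZ0⟩ := h
  obtain ⟨hcs0, hCS0, h10, h20⟩ := hz0
  simp only at hcs0 hCS0 h10 h20 hS0 hZ0
  have ha1 : a1 ≠ 0 := by
    rintro rfl
    have h1 : a2*(b*S0) = 0 := by linarith
    have h2 : a2 ≠ 0 := by rintro rfl; norm_num at haa
    have : a2*(b*S0) ≠ 0 := by positivity
    exact this h1
  -- every element has the same (C,S) and the same kappa
  have key : ∀ c s C S : ℝ, (c,s,C,S) ∈ Sol a b cc ρ (a1*n1) (a2*n1) (a1*n2) (a2*n2) →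
      0 < S → a1*(a*C-cc)+a2*(b*S) = 0 →
      C = C0 ∧ S = S0 ∧ c*n1+s*n2 = c0*n1+s0*n2 := by
    intro c s C S hz hS hZ
    obtain ⟨hcs, hCS, h1, h2⟩ := hz
    simp only at hcs hCS h1 h2
    have hx : (a*C-cc)/(b*S) = (a*C0-cc)/(b*S0) := by
      have e1 : a1*((a*C-cc)/(b*S)) = -a2 := by
        field_simp; linarith
      have e2 : a1*((a*C0-cc)/(b*S0)) = -a2 := by
        field_simp; linarith
      exact mul_left_cancel₀ ha1 (e1.trans e2.symm)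
    obtain ⟨rfl, rfl⟩ := CS_inj ha hb hcc habc hCS hS hCS0 hS0 hx
    refine ⟨rfl, rfl, ?_⟩
    have hr := r_pos ha hb hcc habc hCS
    have h5 : cc*S*(a-cc*C) = ρ*((c*n1+s*n2)*(-a*S*a1+b*C*a2)) := by
      rw [h2]; ring
    have h6 : cc*S*(a-cc*C) = ρ*((c0*n1+s0*n2)*(-a*S*a1+b*C*a2)) := by
      rw [h20]; ring
    have h7 : 0 < cc*S*(a-cc*C) := by positivity
    have h8 : (-a*S*a1+b*C*a2) ≠ 0 := by
      intro h
      rw [h] at h5
      simp at h5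
      rcases h5 with (h5 | h5) | h5
      · exact hcc.ne' h5
      · exact hS.ne' h5
      · exact hr.ne' h5
    have h9 : (c*n1+s*n2)*(-a*S*a1+b*C*a2) = (c0*n1+s0*n2)*(-a*S*a1+b*C*a2) :=
      mul_left_cancel₀ hρ.ne' (h5.symm.trans h6)
    exact mul_right_cancel₀ h8 h9
  refine le_trans (Set.encard_le_encard_of_injOn
    (f := fun z : ℝ × ℝ × ℝ × ℝ => z.1*n2-z.2.1*n1)
    (t := {c0*n2-s0*n1, -(c0*n2-s0*n1)}) ?_ ?_) (encard_pair_le' _ _)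
  · rintro ⟨c, s, C, S⟩ ⟨hz, hS, hZ⟩
    simp only at hS hZ
    obtain ⟨rfl, rfl, hk⟩ := key c s C S hz hS hZ
    have hcs : c^2+s^2 = 1 := hz.1
    have h1 : (c*n2-s*n1)^2 = (c0*n2-s0*n1)^2 := by
      have e1 : (c*n2-s*n1)^2 = (c^2+s^2)*(n1^2+n2^2) - (c*n1+s*n2)^2 := by ring
      have e2 : (c0*n2-s0*n1)^2 = (c0^2+s0^2)*(n1^2+n2^2) - (c0*n1+s0*n2)^2 := by ring
      rw [e1, e2, hcs, hcs0, hk]
    rcases sq_eq_sq_iff_eq_or_eq_neg.mp h1 with h | h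
    · exact Or.inl h
    · exact Or.inr h
  · rintro ⟨c, s, C, S⟩ ⟨hz, hS, hZ⟩ ⟨c', s', C', S'⟩ ⟨hz', hS', hZ'⟩ hx
    simp only at hS hZ hS' hZ' hx
    obtain ⟨e1, e2, hk⟩ := key c s C S hz hS hZ
    obtain ⟨e1', e2', hk'⟩ := key c' s' C' S' hz' hS' hZ'
    have hk2 : c*n1+s*n2 = c'*n1+s'*n2 := hk.trans hk'.symm
    have hc : c = c' := by
      have : (c-c')*(n1^2+n2^2) = 0 := by linear_combination n1*hk2 + n2*hx
      rw [hn, mul_one] at this; linarith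
    have hs : s = s' := by
      have : (s-s')*(n1^2+n2^2) = 0 := by linear_combination n2*hk2 - n1*hx
      rw [hn, mul_one] at this; linarith
    rw [hc, hs, e1, e2, e1', e2']

/-- bound on the part `S > 0`. -/
theorem Splus_le (ha : 0 < a) (hb : 0 < b) (hcc : 0 < cc) (hρ : 0 < ρ)
    (habc : cc^2 + b^2 = a^2)
    (hB1 : b11^2+b21^2 = 1-w1^2) (hB2 : b12^2+b22^2 = 1-w2^2)
    (hB3 : b11*b12+b21*b22 = -(w1*w2)) :
    (0 < b11*b12+b21*b22 → {z ∈ Sol a b cc ρ b11 b12 b21 b22 | 0 < z.2.2.2}.encard ≤ 6) ∧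
    (b11*b12+b21*b22 < 0 → {z ∈ Sol a b cc ρ b11 b12 b21 b22 | 0 < z.2.2.2}.encard ≤ 4) ∧
    (b11*b12+b21*b22 = 0 → {z ∈ Sol a b cc ρ b11 b12 b21 b22 | 0 < z.2.2.2}.encard ≤ 3) := by
  have hdet := det_sq hB1 hB2 hB3
  obtain ⟨he0, he1⟩ := e_bounds ha hb hcc habc
  have hea : |cc/a| < 1 := by rw [abs_of_pos he0]; exact he1
  have hh : 0 < cc*b^2/(a^2*ρ) := by positivity
  rcases (sq_nonneg (b11*b22-b12*b21)).eq_or_lt with hd | hd
  · -- orthogonal planes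
    rw [← hdet] at hd
    obtain ⟨a1, ha1⟩ : ∃ a1, a1 = w2 := ⟨_, rfl⟩
    obtain ⟨a2, ha2⟩ : ∃ a2, a2 = -w1 := ⟨_, rfl⟩
    have haa : a1^2+a2^2 = 1 := by rw [ha1, ha2]; linarith
    have hα : b11^2+b21^2 = a1^2 := by rw [hB1, ha1]; linarith
    have hγ : b12^2+b22^2 = a2^2 := by rw [hB2, ha2]; linarith
    have hβ : b11*b12+b21*b22 = a1*a2 := by rw [hB3, ha1, ha2]; ring
    have h0 : (b11*a2-b12*a1)^2 + (b21*a2-b22*a1)^2 = 0 := by
      have : (b11*a2-b12*a1)^2 + (b21*a2-b22*a1)^2 =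
        (b11^2+b21^2)*a2^2 - 2*(b11*b12+b21*b22)*(a1*a2) + (b12^2+b22^2)*a1^2 := by ring
      rw [this, hα, hβ, hγ]; ring
    have h1 : b11*a2 = b12*a1 := by
      nlinarith [sq_nonneg (b11*a2-b12*a1), sq_nonneg (b21*a2-b22*a1)]
    have h2 : b21*a2 = b22*a1 := by
      nlinarith [sq_nonneg (b11*a2-b12*a1), sq_nonneg (b21*a2-b22*a1)]
    obtain ⟨n1, hn1⟩ : ∃ n1, n1 = b11*a1+b12*a2 := ⟨_, rfl⟩
    obtain ⟨n2, hn2⟩ : ∃ n2, n2 = b21*a1+b22*a2 := ⟨_, rfl⟩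
    have e11 : b11 = a1*n1 := by
      rw [hn1]; linear_combination (-b11)*haa + a2*h1
    have e12 : b12 = a2*n1 := by
      rw [hn1]; linear_combination (-b12)*haa - a1*h1
    have e21 : b21 = a1*n2 := by
      rw [hn2]; linear_combination (-b21)*haa + a2*h2
    have e22 : b22 = a2*n2 := by
      rw [hn2]; linear_combination (-b22)*haa - a1*h2
    have hn : n1^2+n2^2 = 1 := by
      have : n1^2+n2^2 = (a1^2+a2^2)*(n1^2+n2^2) := by rw [haa, one_mul]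
      rw [this]
      have : (a1^2+a2^2)*(n1^2+n2^2) = (a1*n1)^2+(a1*n2)^2+((a2*n1)^2+(a2*n2)^2) := by ring
      rw [this, ← e11, ← e12, ← e21, ← e22, hα, hγ, haa]
    rw [hβ, e11, e12, e21, e22]
    have hA := Splus_orth (a1 := a1) (a2 := a2) (n1 := n1) (n2 := n2) ha hb hcc hρ habc haa hn
    have hB := Splus_orth_zero (a1 := a1) (a2 := a2) (n1 := n1) (n2 := n2) ha hb hcc hρ habc haa hn
    have hU : {z ∈ Sol a b cc ρ (a1*n1) (a2*n1) (a1*n2) (a2*n2) | 0 < z.2.2.2} ⊆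
        {z ∈ Sol a b cc ρ (a1*n1) (a2*n1) (a1*n2) (a2*n2) | 0 < z.2.2.2 ∧
          a1*(a*z.2.2.1-cc)+a2*(b*z.2.2.2) ≠ 0} ∪
        {z ∈ Sol a b cc ρ (a1*n1) (a2*n1) (a1*n2) (a2*n2) | 0 < z.2.2.2 ∧
          a1*(a*z.2.2.1-cc)+a2*(b*z.2.2.2) = 0} := by
      rintro z ⟨hz, hS⟩
      by_cases h : a1*(a*z.2.2.1-cc)+a2*(b*z.2.2.2) = 0
      · exact Or.inr ⟨hz, hS, h⟩
      · exact Or.inl ⟨hz, hS, h⟩
    have hle := (Set.encard_le_encard hU).trans (Set.encard_union_le _ _)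
    refine ⟨fun hβp => ?_, fun hβn => ?_, fun hβz => ?_⟩
    · have h1' : a1 ≠ 0 := by rintro h; rw [h] at hβp; simp at hβp
      have h2' : a2 ≠ 0 := by rintro h; rw [h] at hβp; simp at hβp
      have h3 := count_G_four (e := cc/a) hea he0.ne' h1' h2' hh
      calc _ ≤ _ := hle
        _ ≤ 4 + 2 := add_le_add (hA.trans h3) hB
        _ = 6 := by norm_num
    · have h2' : a2 ≠ 0 := by rintro h; rw [h] at hβn; simp at hβn
      have h3 := count_G_two (e := cc/a) (a1 := a1) hea h2'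
        (mul_nonpos_of_nonneg_of_nonpos he0.le hβn.le) hh
      calc _ ≤ _ := hle
        _ ≤ 2 + 2 := add_le_add (hA.trans h3) hB
        _ = 4 := by norm_num
    · rcases mul_eq_zero.mp hβz with h | h
      · -- a1 = 0
        have h2' : a2 ≠ 0 := by rintro h'; rw [h, h'] at haa; norm_num at haa
        have h3 := count_G_two (e := cc/a) (a1 := a1) hea h2'
          (by rw [hβz]; simp) hh
        have h4 : {z ∈ Sol a b cc ρ (a1*n1) (a2*n1) (a1*n2) (a2*n2) | 0 < z.2.2.2} ⊆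
          {z ∈ Sol a b cc ρ (a1*n1) (a2*n1) (a1*n2) (a2*n2) | 0 < z.2.2.2 ∧
          a1*(a*z.2.2.1-cc)+a2*(b*z.2.2.2) ≠ 0} := by
          rintro z ⟨hz, hS⟩
          refine ⟨hz, hS, ?_⟩
          rw [h]
          have : a2*(b*z.2.2.2) ≠ 0 := by positivity
          simpa using this
        calc _ ≤ _ := Set.encard_le_encard h4
          _ ≤ 2 := hA.trans h3
          _ ≤ 3 := by norm_num
      · have h1' : a1 ≠ 0 := by rintro h'; rw [h, h'] at haa; norm_num at haa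
        rw [h] at hA hle hB ⊢
        have h3 := count_G_one (e := cc/a) hea he0.ne' h1' hh
        calc _ ≤ _ := hle
          _ ≤ 1 + 2 := add_le_add (hA.trans h3) hB
          _ = 3 := by norm_num
  · -- generic
    have hw : w1^2+w2^2 < 1 := by linarith
    have hQ := Q_pos_of hB1 hB2 hB3 hw
    have hle := Splus_nondeg (ρ := ρ) ha hb hcc hρ habc hQ
    refine ⟨fun hβp => ?_, fun hβn => ?_, fun hβz => ?_⟩
    · exact hle.trans (count_le_six hβp he0 he1 hQ hh)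
    · refine hle.trans ?_
      rw [encard_reflect]
      have e1 : b11^2+b21^2 = 1 - |w1|^2 := by rw [hB1, sq_abs]
      have e2 : b12^2+b22^2 = 1 - |w2|^2 := by rw [hB2, sq_abs]
      have hww : 0 < w1*w2 := by linarith
      have e3 : -(b11*b12+b21*b22) = |w2| * |w1| := by
        rw [hB3, neg_neg, mul_comm |w2| |w1|, ← abs_mul, abs_of_pos hww]
      have hw1 : w1 ≠ 0 := by rintro rfl; simp at hww
      have hw2 : w2 ≠ 0 := by rintro rfl; simp at hww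
      rw [e1, e2, e3]
      exact count_le_four (by positivity) (by positivity) (by rw [sq_abs, sq_abs]; linarith)
        (by linarith) (by linarith) hh
    · refine hle.trans ?_
      rw [hβz]
      have hα : 0 < b11^2+b21^2 := by
        rw [hB1]; nlinarith [sq_nonneg w2]
      have hγ : 0 < b12^2+b22^2 := by
        rw [hB2]; nlinarith [sq_nonneg w1]
      exact count_beta_zero hα hγ he0.ne' hea hh

end

end Pool.Agent.Helper19.Moid
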