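import Pool.Agent.Helper19.Moid.Splus

namespace Pool.Agent.Helper19.Moid

section
variable {a b cc ρ b11 b12 b21 b22 w1 w2 : ℝ}

lemma Sminus_le :
    {z ∈ Sol a b cc ρ b11 b12 b21 b22 | z.2.2.2 < 0}.encard ≤
      {z ∈ Sol a b cc ρ b11 (-b12) b21 (-b22) | 0 < z.2.2.2}.encard := by
  refine Set.encard_le_encard_of_injOn
    (f := fun z : ℝ × ℝ × ℝ × ℝ => ((z.1, z.2.1, z.2.2.1, -z.2.2.2) : ℝ × ℝ × ℝ × ℝ)) ?_ ?_
  · rintro ⟨c, s, C, S⟩ ⟨hz, hS⟩
    obtain ⟨hcs, hCS, h1, h2⟩ := hz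
    simp only at hcs hCS h1 h2 hS
    refine ⟨⟨hcs, ?_, ?_, ?_⟩, ?_⟩
    · show C^2 + (-S)^2 = 1
      rw [neg_sq]; exact hCS
    · show c*(b21*(a*C-cc)+(-b22)*(b*(-S))) = s*(b11*(a*C-cc)+(-b12)*(b*(-S)))
      linear_combination h1
    · show cc*(-S)*(a-cc*C) = ρ*(c*(-a*(-S)*b11+b*C*(-b12)) + s*(-a*(-S)*b21+b*C*(-b22)))
      linear_combination -h2
    · show 0 < -S
      linarith
  · rintro ⟨c, s, C, S⟩ _ ⟨c', s', C', S'⟩ _ h
    simp only [Prod.mk.injEq, neg_inj] at h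
    obtain ⟨rfl, rfl, rfl, rfl⟩ := h
    rfl

lemma Szero_empty (ha : 0 < a) (hb : 0 < b) (hcc : 0 < cc) (hρ : 0 < ρ)
    (habc : cc^2 + b^2 = a^2) (hβ : b11*b12+b21*b22 ≠ 0) :
    {z ∈ Sol a b cc ρ b11 b12 b21 b22 | z.2.2.2 = 0} = ∅ := by
  ext ⟨c, s, C, S⟩
  simp only [Set.mem_ofPred_eq, Set.mem_empty_iff_false, iff_false, not_and]
  rintro ⟨hcs, hCS, h1, h2⟩ hS
  simp only at hcs hCS h1 h2
  subst hS
  have hlt : cc < a := by nlinarith [pow_pos hb 2]
  have hC2 : C^2 = 1 := by linarith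
  have hC0 : C ≠ 0 := by rintro rfl; norm_num at hC2
  have hξ : a*C - cc ≠ 0 := by
    intro h
    have : a*C = cc := by linarith
    have h3 : (a*C)^2 = cc^2 := by rw [this]
    rw [mul_pow, hC2] at h3
    nlinarith
  have e1 : c*b21 = s*b11 := by
    have : (c*b21 - s*b11)*(a*C-cc) = 0 := by linear_combination h1
    rcases mul_eq_zero.mp this with h | h
    · linarith
    · exact absurd h hξ
  have e2 : c*b12 + s*b22 = 0 := by
    have : (ρ*b*C)*(c*b12+s*b22) = 0 := by linear_combination -h2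
    rcases mul_eq_zero.mp this with h | h
    · exact absurd h (by positivity)
    · exact h
  have e3 : c*(b11*b12+b21*b22) = 0 := by linear_combination b11*e2 + b22*e1
  have e4 : s*(b11*b12+b21*b22) = 0 := by linear_combination b21*e2 - b12*e1
  have e5 : (c^2+s^2)*(b11*b12+b21*b22) = 0 := by linear_combination c*e3 + s*e4
  rw [hcs, one_mul] at e5
  exact hβ e5

lemma Szero_le_four (ha : 0 < a) (hb : 0 < b) (hcc : 0 < cc) (hρ : 0 < ρ)
    (habc : cc^2 + b^2 = a^2)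
    (hB1 : b11^2+b21^2 = 1-w1^2) (hB2 : b12^2+b22^2 = 1-w2^2)
    (hB3 : b11*b12+b21*b22 = -(w1*w2)) :
    {z ∈ Sol a b cc ρ b11 b12 b21 b22 | z.2.2.2 = 0}.encard ≤ 4 := by
  rcases Set.eq_empty_or_nonempty {z ∈ Sol a b cc ρ b11 b12 b21 b22 | z.2.2.2 = 0} with h | h
  · rw [h]; simp
  obtain ⟨⟨c0, s0, C0, S0⟩, hz0, hS0⟩ := h
  have hlt : cc < a := by nlinarith [pow_pos hb 2]
  have key : ∀ c s C S : ℝ, (c,s,C,S) ∈ Sol a b cc ρ b11 b12 b21 b22 → S = 0 →
      c^2+s^2 = 1 ∧ (C = 1 ∨ C = -1) ∧ c*b21 = s*b11 ∧ c*b12 = s*(-b22) := by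
    intro c s C S hz hS
    obtain ⟨hcs, hCS, h1, h2⟩ := hz
    simp only at hcs hCS h1 h2
    subst hS
    have hC2 : C^2 = 1 := by linarith
    have hC0 : C ≠ 0 := by rintro rfl; norm_num at hC2
    have hξ : a*C - cc ≠ 0 := by
      intro h
      have : a*C = cc := by linarith
      have h3 : (a*C)^2 = cc^2 := by rw [this]
      rw [mul_pow, hC2] at h3
      nlinarith
    refine ⟨hcs, ?_, ?_, ?_⟩
    · have h6 : (C - 1)*(C + 1) = 0 := by linear_combination hC2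
      rcases mul_eq_zero.mp h6 with h | h
      · left; linarith
      · right; linarith
    · have : (c*b21 - s*b11)*(a*C-cc) = 0 := by linear_combination h1
      rcases mul_eq_zero.mp this with h | h
      · linarith
      · exact absurd h hξ
    · have : (ρ*b*C)*(c*b12+s*b22) = 0 := by linear_combination -h2
      rcases mul_eq_zero.mp this with h | h
      · exact absurd h (by positivity)
      · linarith
  obtain ⟨k1, k2, k3, k4⟩ := key c0 s0 C0 S0 hz0 hS0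
  have hsub : {z ∈ Sol a b cc ρ b11 b12 b21 b22 | z.2.2.2 = 0} ⊆
      {(c0,s0,1,0),(c0,s0,-1,0),(-c0,-s0,1,0),(-c0,-s0,-1,0)} := by
    rintro ⟨c, s, C, S⟩ ⟨hz, hS⟩
    simp only at hS
    obtain ⟨j1, j2, j3, j4⟩ := key c s C S hz hS
    subst hS
    have hpar : (c = c0 ∧ s = s0) ∨ (c = -c0 ∧ s = -s0) := by
      by_cases hα : 0 < b11^2+b21^2
      · exact unit_par j1 k1 j3 k3 hα
      · have hγ : 0 < (-b22)^2+b12^2 := by
          have h1 : b11^2+b21^2 = 0 := le_antisymm (not_lt.mp hα) (by positivity)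
          have hdet := det_sq hB1 hB2 hB3
          have h5 : (-b22)^2+b12^2 = 1-w2^2 := by linarith [neg_sq b22]
          have h6 : 0 ≤ (b11*b22-b12*b21)^2 := sq_nonneg _
          rw [h5]
          -- w1^2 = 1, so w2^2 ≤ 0
          have : w1^2 = 1 := by linarith
          nlinarith
        exact unit_par j1 k1 j4 k4 hγ
    simp only [Set.mem_insert_iff, Set.mem_singleton_iff, Prod.mk.injEq]
    rcases hpar with ⟨rfl, rfl⟩ | ⟨rfl, rfl⟩ <;> rcases j2 with rfl | rfl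
    · left; simp
    · right; left; simp
    · right; right; left; simp
    · right; right; right; simp
  refine (Set.encard_le_encard hsub).trans ?_
  refine (Set.encard_insert_le _ _).trans ?_
  refine (add_le_add_left (Set.encard_insert_le _ _) 1).trans ?_
  refine (add_le_add_left (add_le_add_left (Set.encard_insert_le _ _) 1) 1).trans ?_
  rw [Set.encard_singleton]; norm_num

theorem Sol_le_ten (ha : 0 < a) (hb : 0 < b) (hcc : 0 < cc) (hρ : 0 < ρ)
    (habc : cc^2 + b^2 = a^2)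
    (hB1 : b11^2+b21^2 = 1-w1^2) (hB2 : b12^2+b22^2 = 1-w2^2)
    (hB3 : b11*b12+b21*b22 = -(w1*w2)) :
    (Sol a b cc ρ b11 b12 b21 b22).encard ≤ 10 := by
  have hP := Splus_le (ρ := ρ) ha hb hcc hρ habc hB1 hB2 hB3
  have hM := Splus_le (ρ := ρ) (b11 := b11) (b12 := -b12) (b21 := b21) (b22 := -b22) (w1 := w1)
    (w2 := -w2) ha hb hcc hρ habc hB1 (by rw [neg_sq, neg_sq, neg_sq]; exact hB2)
    (by linear_combination -hB3)
  have hβ' : b11 * -b12 + b21 * -b22 = -(b11*b12+b21*b22) := by ring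
  rw [hβ'] at hM
  have hU : Sol a b cc ρ b11 b12 b21 b22 ⊆
      ({z ∈ Sol a b cc ρ b11 b12 b21 b22 | 0 < z.2.2.2} ∪
        {z ∈ Sol a b cc ρ b11 b12 b21 b22 | z.2.2.2 < 0}) ∪
        {z ∈ Sol a b cc ρ b11 b12 b21 b22 | z.2.2.2 = 0} := by
    intro z hz
    rcases lt_trichotomy z.2.2.2 0 with h | h | h
    · exact Or.inl (Or.inr ⟨hz, h⟩)
    · exact Or.inr ⟨hz, h⟩
    · exact Or.inl (Or.inl ⟨hz, h⟩)
  have hle : (Sol a b cc ρ b11 b12 b21 b22).encard ≤
      ({z ∈ Sol a b cc ρ b11 b12 b21 b22 | 0 < z.2.2.2}.encard +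
      {z ∈ Sol a b cc ρ b11 (-b12) b21 (-b22) | 0 < z.2.2.2}.encard) +
      {z ∈ Sol a b cc ρ b11 b12 b21 b22 | z.2.2.2 = 0}.encard := by
    refine (Set.encard_le_encard hU).trans ((Set.encard_union_le _ _).trans ?_)
    refine add_le_add ?_ le_rfl
    exact (Set.encard_union_le _ _).trans (add_le_add le_rfl Sminus_le)
  rcases lt_trichotomy (b11*b12+b21*b22) 0 with h | h | h
  · have h1 := hP.2.1 h
    have h2 := hM.1 (by linarith)
    have h3 := Szero_empty (ρ := ρ) ha hb hcc hρ habc h.ne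
    calc _ ≤ _ := hle
      _ ≤ (4 + 6) + 0 := by
        rw [h3, Set.encard_empty]
        gcongr
      _ = 10 := by norm_num
  · have h1 := hP.2.2 h
    have h2 := hM.2.2 (by linarith)
    have h3 := Szero_le_four (ρ := ρ) ha hb hcc hρ habc hB1 hB2 hB3
    calc _ ≤ _ := hle
      _ ≤ (3 + 3) + 4 := by gcongr
      _ = 10 := by norm_num
  · have h1 := hP.1 h
    have h2 := hM.2.1 (by linarith)
    have h3 := Szero_empty (ρ := ρ) ha hb hcc hρ habc h.ne'
    calc _ ≤ _ := hle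
      _ ≤ (6 + 4) + 0 := by
        rw [h3, Set.encard_empty]
        gcongr
      _ = 10 := by norm_num

end

end Pool.Agent.Helper19.Moid
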