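import Pool.Agent.Helper19.Moid.Branch

namespace Pool.Agent.Helper19.Moid

variable {α β γ e : ℝ}

lemma q_neg_of_gt (hβ : 0 < β) {z b : ℝ} (hz : 0 < z) (hqz : q α β γ z = 0) (hb : z < b) :
    q α β γ b < 0 := by
  simp only [q] at *
  have h1 : (β + (α - γ) * b - β * b^2) * z = -(β * (b - z) * (1 + b * z)) := by
    linear_combination b * hqz
  have h2 : 0 < β * (b - z) * (1 + b * z) := by
    have : 0 < b - z := by linarith
    have : 0 < b := by linarith
    positivity
  by_contra hcon
  push Not at hcon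
  have := mul_nonneg hcon hz.le
  linarith

lemma q_neg_of_lt (hβ : 0 < β) {z a : ℝ} (hz : z < 0) (hqz : q α β γ z = 0) (ha : a < z) :
    q α β γ a < 0 := by
  simp only [q] at *
  have h1 : (β + (α - γ) * a - β * a^2) * z = β * (z - a) * (1 + a * z) := by
    linear_combination a * hqz
  have h2 : 0 < β * (z - a) * (1 + a * z) := by
    have : 0 < z - a := by linarith
    have : 0 < a * z := mul_pos_of_neg_of_neg (by linarith) hz
    positivity
  by_contra hcon
  push Not at hcon
  have := mul_nonpos_of_nonneg_of_nonpos hcon hz.le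
  linarith

lemma M_pos (he : |e| < 1) (x : ℝ) : 0 < M e x := by
  have h1 := abs_lt_L x
  have h2 : |e * x| ≤ 1 * |x| := by
    rw [abs_mul]; exact mul_le_mul_of_nonneg_right he.le (abs_nonneg x)
  have h3 := neg_abs_le (e * x)
  simp only [M]
  linarith

lemma N1_sign (hβ : 0 < β) (he : |e| < 1) {y : ℝ} (hq : q α β γ y < 0) :
    y * N1 α β γ e y < 0 := by
  have hM := M_pos he y
  have hl := L_sq y
  have hl0 := L_pos y
  have h1 : y * N1 α β γ e y * L y ^ 3 =
      q α β γ y - β * L y ^ 3 * M e y := by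
    simp only [N1, q, M]
    generalize L y = l at hl hl0
    have := hl0.ne'
    field_simp
    grind
  have h2 : 0 < β * L y ^ 3 * M e y := by positivity
  have h3 : y * N1 α β γ e y * L y ^ 3 < 0 := by rw [h1]; linarith
  by_contra hcon
  push Not at hcon
  have : 0 ≤ y * N1 α β γ e y * L y ^ 3 := by positivity
  linarith

lemma zeros_N1_le (hβ : 0 < β) (he : |e| < 1) : {x | N1 α β γ e x = 0}.encard ≤ 1 := by
  have h : {x | N1 α β γ e x = 0}.encard ≤ (∅ : Set ℝ).encard + 1 := by
    refine encard_le_succ_of_gap ?_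
    intro a ha b hb hab
    exfalso
    obtain ⟨c, hc, hc'⟩ := exists_hasDerivAt_eq_zero hab
      (fun x _ => (hasDerivAt_N1 (α := α) (β := β) (γ := γ) (e := e) x).continuousAt.continuousWithinAt)
      ((show N1 α β γ e a = 0 from ha).trans (show N1 α β γ e b = 0 from hb).symm)
      (fun x _ => hasDerivAt_N1 x)
    have hqc : q α β γ c = 0 := by
      simp only [N2] at hc'
      have := L_ne c
      field_simp at hc'
      linarith
    rcases lt_trichotomy c 0 with h1 | h1 | h1
    · have := N1_sign (e := e) hβ he (q_neg_of_lt hβ h1 hqc hc.1)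
      rw [show N1 α β γ e a = 0 from ha] at this
      simp at this
    · rw [h1] at hqc
      simp [q] at hqc
      exact hβ.ne' hqc
    · have := N1_sign (e := e) hβ he (q_neg_of_gt hβ h1 hqc hc.2)
      rw [show N1 α β γ e b = 0 from hb] at this
      simp at this
  simpa using h

lemma zeros_N_le (hβ : 0 < β) (he : |e| < 1) : {x | N α β γ e x = 0}.encard ≤ 2 := by
  have h1 := zeros_le_deriv (fun x => hasDerivAt_N (α := α) (β := β) (γ := γ) (e := e) x)
  have h2 := zeros_N1_le (α := α) (γ := γ) hβ he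
  calc _ ≤ _ := h1
    _ ≤ 1 + 1 := by gcongr
    _ = 2 := by norm_num

lemma S_neg_of_q_neg (hβ : 0 < β) (he : 0 < e) {b : ℝ} (hb : 0 < b) (hq : q α β γ b < 0) :
    S α β γ e b < 0 := by
  have hl := L_sq b
  have hl0 := L_pos b
  have h1 : (α - γ) - β * b * (5 + 5 * b^2 + 2 * b^4) < 0 := by
    simp only [q] at hq
    have h2 : ((α - γ) - β * b * (5 + 5 * b^2 + 2 * b^4)) * b < 0 := by
      have : 0 < β * (1 + 4 * b^2 + 5 * b^4 + 2 * b^6) := by positivity
      nlinarith
    by_contra hcon
    push Not at hcon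
    have := mul_nonneg hcon hb.le
    linarith
  have h3 : e * ((α - γ) - β * b * (5 + 5 * b^2 + 2 * b^4)) / L b ^ 5 < 0 :=
    div_neg_of_neg_of_pos (mul_neg_of_pos_of_neg he h1) (by positivity)
  have h4 : 0 < β * (1 + e^2) := by positivity
  simp only [S]
  linarith

lemma zeros_S_le (hβ : 0 < β) (he : 0 < e) : {x | S α β γ e x = 0}.encard ≤ 2 := by
  have h : {x | S α β γ e x = 0}.encard ≤ ({z | z < 0 ∧ q α β γ z = 0} : Set ℝ).encard + 1 := by
    refine encard_le_succ_of_gap ?_
    intro a ha b hb hab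
    obtain ⟨c, hc, hc'⟩ := exists_hasDerivAt_eq_zero hab
      (fun x _ => (hasDerivAt_S (α := α) (β := β) (γ := γ) (e := e) x).continuousAt.continuousWithinAt)
      ((show S α β γ e a = 0 from ha).trans (show S α β γ e b = 0 from hb).symm)
      (fun x _ => hasDerivAt_S x)
    have hqc : q α β γ c = 0 := by
      have := L_ne c
      have he0 := he.ne'
      field_simp at hc'
      have : q α β γ c = 0 ∨ False := by
        rcases mul_eq_zero.mp (show (15 * e) * q α β γ c = 0 by linarith) with h | h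
        · exact absurd h (by positivity)
        · exact Or.inl h
      simpa using this
    refine ⟨c, ⟨?_, hqc⟩, hc.1, hc.2⟩
    by_contra hcon
    push Not at hcon
    rcases hcon.lt_or_eq with h1 | h1
    · have := S_neg_of_q_neg (e := e) hβ he (lt_trans h1 hc.2) (q_neg_of_gt hβ h1 hqc hc.2)
      rw [show S α β γ e b = 0 from hb] at this
      exact lt_irrefl _ this
    · rw [← h1] at hqc
      simp [q] at hqc
      exact hβ.ne' hqc
  have h2 : ({z | z < 0 ∧ q α β γ z = 0} : Set ℝ).encard ≤ 1 := by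
    rw [Set.encard_le_one_iff]
    rintro a b ⟨ha, ha'⟩ ⟨hb, hb'⟩
    rcases lt_trichotomy a b with h1 | h1 | h1
    · exact absurd ha' (q_neg_of_lt hβ hb hb' h1).ne
    · exact h1
    · exact absurd hb' (q_neg_of_lt hβ ha ha' h1).ne
  calc _ ≤ _ := h
    _ ≤ 1 + 1 := by gcongr
    _ = 2 := by norm_num

lemma zeros_T_le_three (hβ : 0 < β) (he : 0 < e) (hQ : ∀ x, 0 < Q α β γ x) :
    {x | T α β γ e x = 0}.encard ≤ 3 := by
  have h1 := zeros_le_deriv (fun x => hasDerivAt_T (α := α) (β := β) (γ := γ) (e := e) x)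
  have h2 : {x | Q α β γ x * S α β γ e x = 0} = {x | S α β γ e x = 0} := by
    ext x; simp [(hQ x).ne']
  rw [h2] at h1
  have h3 := zeros_S_le (α := α) (γ := γ) hβ he
  calc _ ≤ _ := h1
    _ ≤ 2 + 1 := by gcongr
    _ = 3 := by norm_num

/-- general count on a branch -/
lemma count_le (he : |e| < 1) (hQ : ∀ x, 0 < Q α β γ x) {h : ℝ} (hh : 0 < h)
    {m n : ℕ∞} (hT : {x | T α β γ e x = 0}.encard ≤ m) (hN : {x | N α β γ e x = 0}.encard ≤ n) :
    {x | |H α β γ e x| = h}.encard ≤ m + n + 1 := by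
  have h1 := level_le (fun x => hasDerivAt_H (α := α) (β := β) (γ := γ) (e := e) x (hQ x)) hh
  have h2 : {x | T α β γ e x / (Q α β γ x * Real.sqrt (Q α β γ x)) = 0} =
      {x | T α β γ e x = 0} := by
    ext x
    have := Real.sqrt_pos.mpr (hQ x)
    simp [(hQ x).ne', this.ne']
  have h3 : {x | H α β γ e x = 0} = {x | N α β γ e x = 0} := by
    ext x
    have := Real.sqrt_pos.mpr (hQ x)
    simp [H, this.ne', (M_pos he x).ne']
  rw [h2, h3] at h1
  refine h1.trans ?_
  gcongr

lemma count_le_six (hβ : 0 < β) (he : 0 < e) (he1 : e < 1) (hQ : ∀ x, 0 < Q α β γ x)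
    {h : ℝ} (hh : 0 < h) : {x | |H α β γ e x| = h}.encard ≤ 6 := by
  have ha : |e| < 1 := by rw [abs_of_pos he]; exact he1
  have := count_le ha hQ hh (zeros_T_le_three hβ he hQ) (zeros_N_le hβ ha)
  exact this.trans (by norm_num)

lemma zeros_T_beta_zero (hα : 0 < α) (hγ : 0 < γ) (he0 : e ≠ 0) :
    {x | T α 0 γ e x = 0}.encard ≤ 1 := by
  have hQ : ∀ x, 0 < Q α 0 γ x := by
    intro x
    have h0 : Q α 0 γ x = α * x^2 + γ := by simp only [Q]; ring
    rw [h0]; positivity
  by_cases h : α = γ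
  · have : {x | T α 0 γ e x = 0} = ∅ := by
      ext x
      simp only [Set.mem_ofPred_eq, Set.mem_empty_iff_false, iff_false]
      simp only [T, N1, N, q, h]
      simp
      exact ⟨he0, hγ.ne'⟩
    rw [this]; simp
  · have h1 := zeros_le_deriv (fun x => hasDerivAt_T (α := α) (β := 0) (γ := γ) (e := e) x)
    have h2 : {x | Q α 0 γ x * S α 0 γ e x = 0} = ∅ := by
      ext x
      simp only [Set.mem_ofPred_eq, Set.mem_empty_iff_false, iff_false]
      have hs : S α 0 γ e x = 3 * (e * (α - γ) / L x ^ 5) := by simp [S]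
      rw [hs]
      have := L_ne x
      have h3 : α - γ ≠ 0 := sub_ne_zero.mpr h
      have := (hQ x).ne'
      positivity
    rw [h2] at h1
    simpa using h1

lemma zeros_N_beta_zero (hγ : 0 < γ) (he0 : e ≠ 0) :
    {x | N α 0 γ e x = 0}.encard ≤ 1 := by
  by_cases h : α = γ
  · have : {x | N α 0 γ e x = 0} = ∅ := by
      ext x
      simp only [Set.mem_ofPred_eq, Set.mem_empty_iff_false, iff_false]
      simp only [N, q, h]
      simp
      exact ⟨he0, hγ.ne'⟩
    rw [this]; simp
  · have h1 := zeros_le_deriv (fun x => hasDerivAt_N (α := α) (β := 0) (γ := γ) (e := e) x)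
    have h2 : {x | N1 α 0 γ e x = 0} = ∅ := by
      ext x
      simp only [Set.mem_ofPred_eq, Set.mem_empty_iff_false, iff_false]
      have hs : N1 α 0 γ e x = (α - γ) / L x ^ 3 := by simp [N1]
      rw [hs]
      have := L_ne x
      have h3 : α - γ ≠ 0 := sub_ne_zero.mpr h
      positivity
    rw [h2] at h1
    simpa using h1

lemma count_beta_zero (hα : 0 < α) (hγ : 0 < γ) (he0 : e ≠ 0) (he : |e| < 1)
    {h : ℝ} (hh : 0 < h) : {x | |H α 0 γ e x| = h}.encard ≤ 3 := by
  have hQ : ∀ x, 0 < Q α 0 γ x := by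
    intro x
    have h0 : Q α 0 γ x = α * x^2 + γ := by simp only [Q]; ring
    rw [h0]; positivity
  have := count_le he hQ hh (zeros_T_beta_zero hα hγ he0) (zeros_N_beta_zero (α := α) hγ he0)
  exact this.trans (by norm_num)

end Pool.Agent.Helper19.Moid
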